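import Pool.Agent.P.MP_a407c4_co.Defs

/-! Alignments of two strings, with counts of substitutions, insertions and deletions. -/

namespace Pool.Agent.P.MP_a407c4_co.Par

variable {A : Type}

/-- `Al x y s i d`: `x` is turned into `y` by `s` substitutions, `i` insertions, `d` deletions. -/
inductive Al : List A → List A → ℕ → ℕ → ℕ → Prop
  | nil : Al [] [] 0 0 0
  | mat (a : A) {x y : List A} {s i d : ℕ} : Al x y s i d → Al (a :: x) (a :: y) s i d
  | sub (a b : A) {x y : List A} {s i d : ℕ} : Al x y s i d → Al (a :: x) (b :: y) (s + 1) i d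
  | ins (b : A) {x y : List A} {s i d : ℕ} : Al x y s i d → Al x (b :: y) s (i + 1) d
  | del (a : A) {x y : List A} {s i d : ℕ} : Al x y s i d → Al (a :: x) y s i (d + 1)

/-- An alignment of cost at most `c`. -/
def Ed (x y : List A) (c : ℕ) : Prop := ∃ s i d, Al x y s i d ∧ s + i + d ≤ c

theorem Al.len {x y : List A} {s i d : ℕ} (h : Al x y s i d) : y.length + d = x.length + i := by
  induction h <;> simp_all <;> omega

theorem Al.cnt [DecidableEq A] (c : A) {x y : List A} {s i d : ℕ} (h : Al x y s i d) :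
    x.count c ≤ y.count c + s + d := by
  induction h with
  | nil => simp
  | mat a h ih => rw [List.count_cons, List.count_cons]; omega
  | sub a b h ih => rw [List.count_cons, List.count_cons]; split <;> omega
  | ins b h ih => rw [List.count_cons]; omega
  | del a h ih => rw [List.count_cons]; split <;> omega

theorem Al.map {A' : Type} (f : A → A') {x y : List A} {s i d : ℕ} (h : Al x y s i d) :
    Al (x.map f) (y.map f) s i d := by
  induction h with
  | nil => exact .nil
  | mat a _ ih => exact .mat _ ih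
  | sub a b _ ih => exact .sub _ _ ih
  | ins b _ ih => exact .ins _ ih
  | del a _ ih => exact .del _ ih

theorem Al.symm {x y : List A} {s i d : ℕ} (h : Al x y s i d) : Al y x s d i := by
  induction h with
  | nil => exact .nil
  | mat a _ ih => exact .mat a ih
  | sub a b _ ih => exact .sub b a ih
  | ins b _ ih => exact .del b ih
  | del a _ ih => exact .ins a ih

theorem Al.refl (x : List A) : Al x x 0 0 0 := by
  induction x with
  | nil => exact .nil
  | cons a x ih => exact .mat a ih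

theorem Al.cast {x y : List A} {s i d s' i' d' : ℕ} (h : Al x y s i d) (h1 : s = s') (h2 : i = i')
    (h3 : d = d') : Al x y s' i' d' := by
  subst h1 h2 h3; exact h

theorem Al.append {x y u v : List A} {s i d s' i' d' : ℕ} (h : Al x y s i d)
    (h' : Al u v s' i' d') : Al (x ++ u) (y ++ v) (s + s') (i + i') (d + d') := by
  induction h with
  | nil => simpa using h'
  | mat a _ ih => exact .mat a ih
  | sub a b _ ih => exact (Al.sub a b ih).cast (by omega) rfl rfl
  | ins b _ ih => exact (Al.ins b ih).cast rfl (by omega) rfl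
  | del a _ ih => exact (Al.del a ih).cast rfl rfl (by omega)

theorem Al.zero {x y : List A} {s i d : ℕ} (h : Al x y s i d) (h0 : s + i + d = 0) : x = y := by
  induction h with
  | nil => rfl
  | mat a _ ih => rw [ih h0]
  | sub a b _ ih => omega
  | ins b _ ih => omega
  | del a _ ih => omega

theorem Al.split {x y : List A} {s i d : ℕ} (h : Al x y s i d) : ∀ u v : List A, x = u ++ v →
    ∃ y1 y2 s1 i1 d1 s2 i2 d2, y = y1 ++ y2 ∧ Al u y1 s1 i1 d1 ∧ Al v y2 s2 i2 d2 ∧
      s = s1 + s2 ∧ i = i1 + i2 ∧ d = d1 + d2 := by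
  have triv : ∀ {x y : List A} {s i d : ℕ}, Al x y s i d →
      ∃ y1 y2 s1 i1 d1 s2 i2 d2, y = y1 ++ y2 ∧ Al [] y1 s1 i1 d1 ∧ Al x y2 s2 i2 d2 ∧
        s = s1 + s2 ∧ i = i1 + i2 ∧ d = d1 + d2 :=
    fun h => ⟨[], _, 0, 0, 0, _, _, _, rfl, .nil, h, by simp, by simp, by simp⟩
  induction h with
  | nil =>
    intro u v huv
    obtain ⟨rfl, rfl⟩ := List.append_eq_nil_iff.1 huv.symm
    exact triv .nil
  | mat a h ih =>
    intro u v huv
    cases u with
    | nil => obtain rfl : _ = v := huv; exact triv (.mat a h)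
    | cons e u =>
      obtain ⟨rfl, h2⟩ := List.cons.inj huv
      obtain ⟨y1, y2, s1, i1, d1, s2, i2, d2, rfl, p, q, rfl, rfl, rfl⟩ := ih u v h2
      exact ⟨a :: y1, y2, _, _, _, _, _, _, rfl, .mat a p, q, rfl, rfl, rfl⟩
  | sub a b h ih =>
    intro u v huv
    cases u with
    | nil => obtain rfl : _ = v := huv; exact triv (.sub a b h)
    | cons e u =>
      obtain ⟨rfl, h2⟩ := List.cons.inj huv
      obtain ⟨y1, y2, s1, i1, d1, s2, i2, d2, rfl, p, q, rfl, rfl, rfl⟩ := ih u v h2
      exact ⟨b :: y1, y2, _, _, _, _, _, _, rfl, .sub a b p, q, by omega, rfl, rfl⟩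
  | ins b h ih =>
    intro u v huv
    obtain ⟨y1, y2, s1, i1, d1, s2, i2, d2, rfl, p, q, rfl, rfl, rfl⟩ := ih u v huv
    exact ⟨b :: y1, y2, _, _, _, _, _, _, rfl, .ins b p, q, rfl, by omega, rfl⟩
  | del a h ih =>
    intro u v huv
    cases u with
    | nil => obtain rfl : _ = v := huv; exact triv (.del a h)
    | cons e u =>
      obtain ⟨rfl, h2⟩ := List.cons.inj huv
      obtain ⟨y1, y2, s1, i1, d1, s2, i2, d2, rfl, p, q, rfl, rfl, rfl⟩ := ih u v h2
      exact ⟨y1, y2, _, _, _, _, _, _, rfl, .del a p, q, rfl, rfl, by omega⟩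

theorem Al.ed {x y : List A} {s i d c : ℕ} (h : Al x y s i d) (hc : s + i + d ≤ c) : Ed x y c :=
  ⟨s, i, d, h, hc⟩

theorem Ed.mono {x y : List A} {c c' : ℕ} (h : Ed x y c) (hc : c ≤ c') : Ed x y c' := by
  obtain ⟨s, i, d, h, h'⟩ := h
  exact ⟨s, i, d, h, h'.trans hc⟩

theorem Ed.symm {x y : List A} {c : ℕ} (h : Ed x y c) : Ed y x c := by
  obtain ⟨s, i, d, h, h'⟩ := h
  exact ⟨s, d, i, h.symm, by omega⟩

theorem Ed.refl (x : List A) (c : ℕ) : Ed x x c := (Al.refl x).ed (by simp)

theorem Ed.append {x y u v : List A} {c c' : ℕ} (h : Ed x y c) (h' : Ed u v c') :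
    Ed (x ++ u) (y ++ v) (c + c') := by
  obtain ⟨s, i, d, h, h1⟩ := h
  obtain ⟨s', i', d', h', h2⟩ := h'
  exact (h.append h').ed (by omega)

theorem Ed.mat (a : A) {x y : List A} {c : ℕ} (h : Ed x y c) : Ed (a :: x) (a :: y) c := by
  obtain ⟨s, i, d, h, h'⟩ := h
  exact (Al.mat a h).ed h'

theorem Ed.sub (a b : A) {x y : List A} {c : ℕ} (h : Ed x y c) : Ed (a :: x) (b :: y) (c + 1) := by
  obtain ⟨s, i, d, h, h'⟩ := h
  exact (Al.sub a b h).ed (by omega)

theorem Ed.ins (b : A) {x y : List A} {c : ℕ} (h : Ed x y c) : Ed x (b :: y) (c + 1) := by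
  obtain ⟨s, i, d, h, h'⟩ := h
  exact (Al.ins b h).ed (by omega)

theorem Ed.del (a : A) {x y : List A} {c : ℕ} (h : Ed x y c) : Ed (a :: x) y (c + 1) := by
  obtain ⟨s, i, d, h, h'⟩ := h
  exact (Al.del a h).ed (by omega)

theorem Ed.len {x y : List A} {c : ℕ} (h : Ed x y c) :
    x.length ≤ y.length + c ∧ y.length ≤ x.length + c := by
  obtain ⟨s, i, d, h, h'⟩ := h
  have := h.len
  omega

theorem ed_max (x y : List A) : Ed x y (max x.length y.length) := by
  induction x generalizing y with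
  | nil =>
    induction y with
    | nil => exact Ed.refl _ _
    | cons b y ih => exact (ih.ins b).mono (by simp)
  | cons a x ih =>
    cases y with
    | nil => exact ((ih []).del a).mono (by simp)
    | cons b y => exact ((ih y).sub a b).mono (by simp only [List.length_cons]; omega)

theorem Al.head {x y : List A} {s i d : ℕ} (h : Al x y s i d) : ∀ (a b : A) (v : List A),
    x = a :: v → Ed v y (s + i + d + 1) ∧ Ed (b :: v) y (s + i + d + 1) := by
  induction h with
  | nil => intro a b v hv; cases hv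
  | mat e h _ =>
    intro a b v hv
    obtain ⟨rfl, rfl⟩ := List.cons.inj hv
    exact ⟨(Al.ins e h).ed (by omega), (Al.sub b e h).ed (by omega)⟩
  | sub e f h _ =>
    intro a b v hv
    obtain ⟨rfl, rfl⟩ := List.cons.inj hv
    exact ⟨(Al.ins f h).ed (by omega), (Al.sub b f h).ed (by omega)⟩
  | ins f h ih =>
    intro a b v hv
    obtain ⟨p, q⟩ := ih a b v hv
    exact ⟨(p.ins f).mono (by omega), (q.ins f).mono (by omega)⟩
  | del e h _ =>
    intro a b v hv
    obtain ⟨rfl, rfl⟩ := List.cons.inj hv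
    exact ⟨h.ed (by omega), (Al.del b h).ed (by omega)⟩

theorem Ed.adj {x x' y : List A} {c : ℕ} (hx : (editGraph A).Adj x x') (h : Ed x' y c) :
    Ed x y (c + 1) := by
  obtain ⟨s, i, d, h, hc⟩ := h
  rw [editGraph, SimpleGraph.fromRel_adj] at hx
  obtain ⟨-, (⟨u, v, a, rfl, e⟩ | ⟨u, v, a, b, rfl, e⟩) |
    (⟨u, v, a, e, rfl⟩ | ⟨u, v, b, a, e, rfl⟩)⟩ := hx <;>
  obtain ⟨y1, y2, s1, i1, d1, s2, i2, d2, rfl, p, q, rfl, rfl, rfl⟩ := h.split _ _ e
  · exact ((p.ed le_rfl).append (q.head a a v rfl).1).mono (by omega)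
  · exact ((p.ed le_rfl).append (q.head b a v rfl).2).mono (by omega)
  · exact (p.append (Al.del a q)).ed (by omega)
  · exact ((p.ed le_rfl).append (q.head b a v rfl).2).mono (by omega)

theorem ed_of_walk {x y : List A} (w : (editGraph A).Walk x y) : Ed x y w.length := by
  induction w with
  | nil => exact Ed.refl _ _
  | cons h w ih => exact ih.adj h

theorem edist_one {x y : List A}
    (h : (∃ (u v : List A) (a : A), x = u ++ v ∧ y = u ++ a :: v) ∨
      (∃ (u v : List A) (a b : A), x = u ++ a :: v ∧ y = u ++ b :: v)) :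
    (editGraph A).edist x y ≤ 1 := by
  rw [SimpleGraph.edist_le_one_iff_adj_or_eq]
  by_cases e : x = y
  · exact Or.inr e
  · left
    rw [editGraph, SimpleGraph.fromRel_adj]
    exact ⟨e, Or.inl h⟩

theorem Al.edist {x y : List A} {s i d : ℕ} (h : Al x y s i d) : ∀ u : List A,
    (editGraph A).edist (u ++ x) (u ++ y) ≤ (s + i + d : ℕ) := by
  induction h with
  | nil => intro u; simp
  | mat a _ ih => intro u; simpa using ih (u ++ [a])
  | @sub a b x y s i d _ ih =>
    intro u
    have h1 : (editGraph A).edist (u ++ a :: x) (u ++ b :: x) ≤ 1 :=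
      edist_one (Or.inr ⟨u, x, a, b, rfl, rfl⟩)
    have h2 : (editGraph A).edist (u ++ b :: x) (u ++ b :: y) ≤ (s + i + d : ℕ) := by
      simpa using ih (u ++ [b])
    refine SimpleGraph.edist_triangle.trans ((add_le_add h1 h2).trans ?_)
    exact_mod_cast (by omega : 1 + (s + i + d) ≤ s + 1 + i + d)
  | @ins b x y s i d _ ih =>
    intro u
    have h1 : (editGraph A).edist (u ++ y) (u ++ b :: y) ≤ 1 :=
      edist_one (Or.inl ⟨u, y, b, rfl, rfl⟩)
    refine SimpleGraph.edist_triangle.trans ((add_le_add (ih u) h1).trans ?_)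
    exact_mod_cast (by omega : (s + i + d) + 1 ≤ s + (i + 1) + d)
  | @del a x y s i d _ ih =>
    intro u
    have h1 : (editGraph A).edist (u ++ a :: x) (u ++ x) ≤ 1 := by
      rw [SimpleGraph.edist_comm]
      exact edist_one (Or.inl ⟨u, x, a, rfl, rfl⟩)
    refine SimpleGraph.edist_triangle.trans ((add_le_add h1 (ih u)).trans ?_)
    exact_mod_cast (by omega : 1 + (s + i + d) ≤ s + i + (d + 1))

theorem edist_le_iff {x y : List A} {c : ℕ} : (editGraph A).edist x y ≤ c ↔ Ed x y c := by
  constructor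
  · intro h
    have hne : (editGraph A).edist x y ≠ ⊤ := ne_top_of_le_ne_top (ENat.natCast_ne_top c) h
    obtain ⟨w, hw⟩ := SimpleGraph.exists_walk_of_edist_ne_top hne
    rw [← hw] at h
    exact (ed_of_walk w).mono (by exact_mod_cast h)
  · rintro ⟨s, i, d, h, hc⟩
    exact (h.edist []).trans (by exact_mod_cast hc)

theorem Ed.trans {x y z : List A} {c c' : ℕ} (h : Ed x y c) (h' : Ed y z c') : Ed x z (c + c') := by
  rw [← edist_le_iff] at h h' ⊢
  exact SimpleGraph.edist_triangle.trans ((add_le_add h h').trans (by push_cast; rfl))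

theorem guaranteed_iff {n d r : ℕ} {B : Set (List A)} : Guaranteed n d r B ↔
    ∀ s t : List A, s.length = n → t.length = n → Ed s t d →
      ∃ v ∈ B, v.length = n ∧ Ed s v r ∧ Ed t v r := by
  simp only [Guaranteed, edist_le_iff]

/-- The word that keeps every letter of both strings. -/
theorem Al.union {x y : List A} {s i d : ℕ} (h : Al x y s i d) :
    ∃ w : List A, w.length = x.length + i + s ∧ Ed w x (i + s) ∧ Ed w y (d + s) := by
  induction h with
  | nil => exact ⟨[], rfl, Ed.refl _ _, Ed.refl _ _⟩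
  | mat a _ ih =>
    obtain ⟨w, h1, h2, h3⟩ := ih
    exact ⟨a :: w, by simp only [List.length_cons]; omega, h2.mat a, h3.mat a⟩
  | sub a b _ ih =>
    obtain ⟨w, h1, h2, h3⟩ := ih
    exact ⟨a :: b :: w, by simp only [List.length_cons]; omega, (h2.del b).mat a,
      (h3.mat b).del a⟩
  | ins b _ ih =>
    obtain ⟨w, h1, h2, h3⟩ := ih
    exact ⟨b :: w, by simp only [List.length_cons]; omega, (h2.del b).mono (by omega), h3.mat b⟩
  | del a _ ih =>
    obtain ⟨w, h1, h2, h3⟩ := ih
    exact ⟨a :: w, by simp only [List.length_cons]; omega, h2.mat a, (h3.del a).mono (by omega)⟩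

/-- The word of the common letters; `v` substituted places are dropped, the others get `c`. -/
theorem Al.inter [DecidableEq A] (c : A) {x y : List A} {s i d : ℕ} (h : Al x y s i d) :
    ∀ v ≤ s, ∃ z : List A, z.length + d + v = x.length ∧ s ≤ z.count c + v ∧
      Ed z x (d + s) ∧ Ed z y (i + s) := by
  induction h with
  | nil => intro v hv; exact ⟨[], by simpa using hv, by simp, Ed.refl _ _, Ed.refl _ _⟩
  | mat a _ ih =>
    intro v hv
    obtain ⟨z, h1, h2, h3, h4⟩ := ih v hv
    refine ⟨a :: z, by simp only [List.length_cons]; omega, ?_, h3.mat a, h4.mat a⟩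
    rw [List.count_cons]; omega
  | sub a b _ ih =>
    intro v hv
    cases v with
    | zero =>
      obtain ⟨z, h1, h2, h3, h4⟩ := ih 0 (Nat.zero_le _)
      refine ⟨c :: z, by simp only [List.length_cons]; omega, ?_, h3.sub c a, h4.sub c b⟩
      rw [List.count_cons_self]; omega
    | succ v =>
      obtain ⟨z, h1, h2, h3, h4⟩ := ih v (by omega)
      exact ⟨z, by simp only [List.length_cons]; omega, by omega, h3.ins a, h4.ins b⟩
  | ins b _ ih =>
    intro v hv
    obtain ⟨z, h1, h2, h3, h4⟩ := ih v hv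
    exact ⟨z, h1, h2, h3, (h4.ins b).mono (by omega)⟩
  | del a _ ih =>
    intro v hv
    obtain ⟨z, h1, h2, h3, h4⟩ := ih v hv
    exact ⟨z, by simp only [List.length_cons]; omega, h2, (h3.ins a).mono (by omega), h4⟩

/-- All letters are kept; of the substituted places `a` follow `x`, `b` follow `y`, `v` keep both. -/
theorem Al.umix {x y : List A} {s i d : ℕ} (h : Al x y s i d) : ∀ a b v : ℕ, a + b + v = s →
    ∃ w : List A, w.length = x.length + i + v ∧ Ed w x (i + v + b) ∧ Ed w y (d + v + a) := by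
  induction h with
  | nil => intro a b v hv; exact ⟨[], by simp; omega, Ed.refl _ _, Ed.refl _ _⟩
  | mat e _ ih =>
    intro a b v hv
    obtain ⟨w, h1, h2, h3⟩ := ih a b v hv
    exact ⟨e :: w, by simp only [List.length_cons]; omega, h2.mat e, h3.mat e⟩
  | sub e f _ ih =>
    intro a b v hv
    rcases a with _ | a
    · rcases b with _ | b
      · rcases v with _ | v
        · omega
        · obtain ⟨w, h1, h2, h3⟩ := ih 0 0 v (by omega)
          exact ⟨e :: f :: w, by simp only [List.length_cons]; omega,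
            ((h2.del f).mat e).mono (by omega), ((h3.mat f).del e).mono (by omega)⟩
      · obtain ⟨w, h1, h2, h3⟩ := ih 0 b v (by omega)
        exact ⟨f :: w, by simp only [List.length_cons]; omega, h2.sub f e, h3.mat f⟩
    · obtain ⟨w, h1, h2, h3⟩ := ih a b v (by omega)
      exact ⟨e :: w, by simp only [List.length_cons]; omega, h2.mat e, h3.sub e f⟩
  | ins e _ ih =>
    intro a b v hv
    obtain ⟨w, h1, h2, h3⟩ := ih a b v hv
    exact ⟨e :: w, by simp only [List.length_cons]; omega, (h2.del e).mono (by omega), h3.mat e⟩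
  | del e _ ih =>
    intro a b v hv
    obtain ⟨w, h1, h2, h3⟩ := ih a b v hv
    exact ⟨e :: w, by simp only [List.length_cons]; omega, h2.mat e, (h3.del e).mono (by omega)⟩

/-- Only common letters; of the substituted places `a` follow `x`, `b` follow `y`, `v` are dropped. -/
theorem Al.imix {x y : List A} {s i d : ℕ} (h : Al x y s i d) : ∀ a b v : ℕ, a + b + v = s →
    ∃ z : List A, z.length + d + v = x.length ∧ Ed z x (d + v + b) ∧ Ed z y (i + v + a) := by
  induction h with
  | nil => intro a b v hv; exact ⟨[], by simp; omega, Ed.refl _ _, Ed.refl _ _⟩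
  | mat e _ ih =>
    intro a b v hv
    obtain ⟨w, h1, h2, h3⟩ := ih a b v hv
    exact ⟨e :: w, by simp only [List.length_cons]; omega, h2.mat e, h3.mat e⟩
  | sub e f _ ih =>
    intro a b v hv
    rcases a with _ | a
    · rcases b with _ | b
      · rcases v with _ | v
        · omega
        · obtain ⟨w, h1, h2, h3⟩ := ih 0 0 v (by omega)
          exact ⟨w, by simp only [List.length_cons]; omega, (h2.ins e).mono (by omega),
            (h3.ins f).mono (by omega)⟩
      · obtain ⟨w, h1, h2, h3⟩ := ih 0 b v (by omega)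
        exact ⟨f :: w, by simp only [List.length_cons]; omega, h2.sub f e, h3.mat f⟩
    · obtain ⟨w, h1, h2, h3⟩ := ih a b v (by omega)
      exact ⟨e :: w, by simp only [List.length_cons]; omega, h2.mat e, h3.sub e f⟩
  | ins e _ ih =>
    intro a b v hv
    obtain ⟨w, h1, h2, h3⟩ := ih a b v hv
    exact ⟨w, h1, h2, (h3.ins e).mono (by omega)⟩
  | del e _ ih =>
    intro a b v hv
    obtain ⟨w, h1, h2, h3⟩ := ih a b v hv
    exact ⟨w, by simp only [List.length_cons]; omega, (h2.ins e).mono (by omega), h3⟩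

/-- Two letters, substitutions only: put `a`, or put `b`, at the first `m` substituted places. -/
theorem Al.first [DecidableEq A] {a b : A} (hab : a ≠ b) (hA : ∀ u : A, u = a ∨ u = b)
    {x y : List A} {s i d : ℕ} (h : Al x y s i d) (hi : i = 0) (hd : d = 0) : ∀ m ≤ s,
    (∃ s', s' < s ∧ Al x y s' 0 0) ∨
    ∃ (p1 p0 px py x' y' : List A) (j j' s' : ℕ), x = px ++ x' ∧ y = py ++ y' ∧ Al x' y' s' 0 0 ∧
      s' + m = s ∧ j + j' = m ∧ p1.length = px.length ∧ p0.length = px.length ∧
      p1.count a = p0.count a + m ∧ Ed p1 px j' ∧ Ed p1 py j ∧ Ed p0 px j ∧ Ed p0 py j' := by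
  have triv : ∀ {x y : List A} {s : ℕ}, Al x y s 0 0 →
      ∃ (p1 p0 px py x' y' : List A) (j j' s' : ℕ), x = px ++ x' ∧ y = py ++ y' ∧
        Al x' y' s' 0 0 ∧ s' + 0 = s ∧ j + j' = 0 ∧ p1.length = px.length ∧
        p0.length = px.length ∧ p1.count a = p0.count a + 0 ∧ Ed p1 px j' ∧ Ed p1 py j ∧
        Ed p0 px j ∧ Ed p0 py j' :=
    fun h => ⟨[], [], [], [], _, _, 0, 0, _, rfl, rfl, h, rfl, rfl, rfl, rfl, rfl, Ed.refl _ _,
      Ed.refl _ _, Ed.refl _ _, Ed.refl _ _⟩
  induction h with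
  | nil =>
    intro m hm
    obtain rfl : m = 0 := by omega
    exact Or.inr (triv .nil)
  | mat e h ih =>
    intro m hm
    rcases ih hi hd m hm with ⟨s', h1, h2⟩ |
      ⟨p1, p0, px, py, x', y', j, j', s', rfl, rfl, h1, h2, h3, h4, h5, h6, k1, k2, k3, k4⟩
    · exact Or.inl ⟨s', h1, .mat e h2⟩
    · refine Or.inr ⟨e :: p1, e :: p0, e :: px, e :: py, x', y', j, j', s', rfl, rfl, h1, h2, h3,
        by simp [h4], by simp [h5], ?_, k1.mat e, k2.mat e, k3.mat e, k4.mat e⟩
      rw [List.count_cons, List.count_cons]; omega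
  | sub e f h ih =>
    intro m hm
    subst hi hd
    rcases m with _ | m
    · exact Or.inr (triv (.sub e f h))
    by_cases hef : e = f
    · subst hef
      exact Or.inl ⟨_, Nat.lt_succ_self _, .mat e h⟩
    rcases ih rfl rfl m (by omega) with ⟨s', h1, h2⟩ |
      ⟨p1, p0, px, py, x', y', j, j', s', rfl, rfl, h1, h2, h3, h4, h5, h6, k1, k2, k3, k4⟩
    · exact Or.inl ⟨s' + 1, by omega, .sub e f h2⟩
    have hc : (a :: p1).count a = (b :: p0).count a + (m + 1) := by
      rw [List.count_cons_self, List.count_cons_of_ne hab.symm]; omega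
    rcases hA e with rfl | rfl <;> rcases hA f with rfl | rfl
    · exact absurd rfl hef
    · exact Or.inr ⟨_, _, e :: px, f :: py, x', y', j + 1, j', s', rfl, rfl, h1, by omega,
        by omega, by simp [h4], by simp [h5], hc, k1.mat e, k2.sub e f, k3.sub f e, k4.mat f⟩
    · exact Or.inr ⟨_, _, e :: px, f :: py, x', y', j, j' + 1, s', rfl, rfl, h1, by omega,
        by omega, by simp [h4], by simp [h5], hc, k1.sub f e, k2.mat f, k3.mat e, k4.sub e f⟩
    · exact absurd rfl hef
  | ins e _ ih => omega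
  | del e _ ih => omega

theorem count_take_mono [DecidableEq A] (a : A) (y : List A) {m m' : ℕ} (h : m ≤ m') :
    (y.take m).count a ≤ (y.take m').count a :=
  (List.take_prefix_take_left h).sublist.count_le a

/-- Letter counts of initial segments along an alignment. -/
theorem Al.pre [DecidableEq A] (a : A) {p q y : List A} {s i d : ℕ} (h : Al (p ++ q) y s i d) :
    p.count a ≤ (y.take (p.length + i)).count a + s + d ∧
      (y.take (p.length - d)).count a ≤ p.count a + s + i := by
  obtain ⟨y1, y2, s1, i1, d1, s2, i2, d2, rfl, h1, -, rfl, rfl, rfl⟩ := h.split _ _ rfl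
  have l := h1.len
  have c1 := h1.cnt a
  have c2 := h1.symm.cnt a
  have e : y1.count a = ((y1 ++ y2).take y1.length).count a := by simp
  have m1 := count_take_mono a (y1 ++ y2) (show y1.length ≤ p.length + (i1 + i2) by omega)
  have m2 := count_take_mono a (y1 ++ y2) (show p.length - (d1 + d2) ≤ y1.length by omega)
  omega

theorem Al.onesub {x y : List A} {s i d : ℕ} (h : Al x y s i d) (hs : 1 ≤ s) :
    ∃ z : List A, z.length = x.length ∧ Ed z x 1 ∧ Ed z y (s + i + d - 1) := by
  induction h with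
  | nil => omega
  | mat a _ ih =>
    obtain ⟨z, h1, h2, h3⟩ := ih hs
    exact ⟨a :: z, by simp [h1], h2.mat a, h3.mat a⟩
  | @sub a b x y s i d h _ =>
    exact ⟨b :: x, rfl, (Ed.refl x 0).sub b a, (Al.mat b h).ed (by omega)⟩
  | ins b _ ih =>
    obtain ⟨z, h1, h2, h3⟩ := ih hs
    exact ⟨z, h1, h2, (h3.ins b).mono (by omega)⟩
  | del a _ ih =>
    obtain ⟨z, h1, h2, h3⟩ := ih hs
    exact ⟨a :: z, by simp [h1], h2.mat a, (h3.del a).mono (by omega)⟩

theorem Al.onedel {x y : List A} {s i d : ℕ} (h : Al x y s i d) (hd : 1 ≤ d) :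
    ∃ p a q, x = p ++ a :: q ∧ Ed (p ++ q) y (s + i + d - 1) := by
  induction h with
  | nil => omega
  | mat a _ ih =>
    obtain ⟨p, e, q, rfl, h3⟩ := ih hd
    exact ⟨a :: p, e, q, rfl, h3.mat a⟩
  | sub a b _ ih =>
    obtain ⟨p, e, q, rfl, h3⟩ := ih hd
    exact ⟨a :: p, e, q, rfl, (h3.sub a b).mono (by omega)⟩
  | ins b _ ih =>
    obtain ⟨p, e, q, rfl, h3⟩ := ih hd
    exact ⟨p, e, q, rfl, (h3.ins b).mono (by omega)⟩
  | @del a x y s i d h _ => exact ⟨[], a, x, rfl, h.ed (by omega)⟩

theorem Al.ham {x y : List A} {s i d : ℕ} (h : Al x y s i d) (a0 : A) (hi : i = 0) (hd : d = 0)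
    (hs : s ≤ 1) : ∃ j b, y = x.set j b := by
  induction h with
  | nil => exact ⟨0, a0, rfl⟩
  | mat a _ ih =>
    obtain ⟨j, b, rfl⟩ := ih hi hd hs
    exact ⟨j + 1, b, rfl⟩
  | sub a b h _ =>
    obtain rfl := h.zero (by omega)
    exact ⟨0, b, rfl⟩
  | ins b _ ih => omega
  | del a _ ih => omega

/-- A long stretch of the first string contains a block that the alignment leaves untouched. -/
theorem run0 (L b : ℕ) : ∀ (M q y : List A) (s i d : ℕ), Al (M ++ q) y s i d → s + i + d ≤ b →
    (b + 1) * L ≤ M.length → ∃ M1 R M2 y1 y2 s1 i1 d1 s2 i2 d2, M = M1 ++ (R ++ M2) ∧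
      R.length = L ∧ y = y1 ++ (R ++ y2) ∧ Al M1 y1 s1 i1 d1 ∧ Al (M2 ++ q) y2 s2 i2 d2 ∧
      s = s1 + s2 ∧ i = i1 + i2 ∧ d = d1 + d2 := by
  induction b with
  | zero =>
    intro M q y s i d h hb hM
    obtain rfl := h.zero (by omega)
    refine ⟨[], M.take L, M.drop L, [], M.drop L ++ q, 0, 0, 0, 0, 0, 0, by simp, ?_, ?_, .nil,
      Al.refl _, by omega, by omega, by omega⟩
    · rw [List.length_take]; omega
    · rw [List.nil_append, ← List.append_assoc, List.take_append_drop]
  | succ b ih =>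
    intro M q y s i d h hb hM
    have hb2 : (b + 1 + 1) * L = (b + 1) * L + L := by ring
    have hL : (M.take L).length = L := by rw [List.length_take]; omega
    obtain ⟨ya, yb, s1, i1, d1, s2, i2, d2, rfl, p, q', rfl, rfl, rfl⟩ :=
      h.split (M.take L) (M.drop L ++ q) (by rw [← List.append_assoc, List.take_append_drop])
    by_cases h0 : s1 + i1 + d1 = 0
    · obtain rfl := p.zero h0
      exact ⟨[], M.take L, M.drop L, [], yb, 0, 0, 0, s2, i2, d2, by simp, hL, rfl, .nil, q',
        by omega, by omega, by omega⟩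
    · obtain ⟨M1, R, M2, y1, y2, s3, i3, d3, s4, i4, d4, e1, e2, rfl, p1, p2, rfl, rfl, rfl⟩ :=
        ih (M.drop L) q yb s2 i2 d2 q' (by omega) (by rw [List.length_drop]; omega)
      refine ⟨M.take L ++ M1, R, M2, ya ++ y1, y2, _, _, _, _, _, _, ?_, e2, by simp,
        p.append p1, p2, by omega, by omega, by omega⟩
      rw [List.append_assoc, ← e1, List.take_append_drop]

theorem run (L b : ℕ) {p M q y : List A} {s i d : ℕ} (h : Al (p ++ (M ++ q)) y s i d)
    (hb : s + i + d ≤ b) (hM : (b + 1) * L ≤ M.length) :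
    ∃ M1 R M2 y1 y2 s1 i1 d1 s2 i2 d2, M = M1 ++ (R ++ M2) ∧
      R.length = L ∧ y = y1 ++ (R ++ y2) ∧ Al (p ++ M1) y1 s1 i1 d1 ∧ Al (M2 ++ q) y2 s2 i2 d2 ∧
      s = s1 + s2 ∧ i = i1 + i2 ∧ d = d1 + d2 := by
  obtain ⟨ya, yb, s1, i1, d1, s2, i2, d2, rfl, p0, q', rfl, rfl, rfl⟩ := h.split _ _ rfl
  obtain ⟨M1, R, M2, y1, y2, s3, i3, d3, s4, i4, d4, e1, e2, rfl, p1, p2, rfl, rfl, rfl⟩ :=
    run0 L b M q yb s2 i2 d2 q' (by omega) hM
  exact ⟨M1, R, M2, ya ++ y1, y2, _, _, _, _, _, _, e1, e2, by simp, p0.append p1, p2,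
    by omega, by omega, by omega⟩

end Pool.Agent.P.MP_a407c4_co.Par
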