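import Mathlib

namespace Pool.Agent.P.MP_a407c4_co

/-- The graph on all finite strings over `A`: two different strings are adjacent when one arises
from the other by inserting one letter (read backwards: deleting it) or by substituting one letter. -/
def editGraph (A : Type) : SimpleGraph (List A) :=
  SimpleGraph.fromRel fun s t =>
    (∃ (u v : List A) (a : A), s = u ++ v ∧ t = u ++ a :: v) ∨
    (∃ (u v : List A) (a b : A), s = u ++ a :: v ∧ t = u ++ b :: v)

/-- `B` is `(d, r)`-guaranteed for strings of length `n`. -/
def Guaranteed {A : Type} (n d r : ℕ) (B : Set (List A)) : Prop :=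
  ∀ s t : List A, s.length = n → t.length = n → (editGraph A).edist s t ≤ d →
    ∃ v ∈ B, v.length = n ∧ (editGraph A).edist s v ≤ r ∧ (editGraph A).edist t v ≤ r

end Pool.Agent.P.MP_a407c4_co
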