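import Pool.Agent.P.MP_a407c4_co.Defs

namespace Pool.Agent.P.MP_a407c4_co

def cost (x y : Bool) : ℕ := if x = y then 0 else 1

def step (x : Bool) : List Bool → List ℕ → List ℕ
  | [], r => [r.headD 0 + 1]
  | y :: ys, r =>
    min (r.headD 0 + 1) (min ((step x ys r.tail).headD 0 + 1) (r.tail.headD 0 + cost x y))
      :: step x ys r.tail

def base : List Bool → List ℕ
  | [] => [0]
  | _ :: ys => (ys.length + 1) :: base ys

def row : List Bool → List Bool → List ℕ
  | [], ys => base ys
  | x :: xs, ys => step x ys (row xs ys)

def lev (xs ys : List Bool) : ℕ := (row xs ys).headD 0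

theorem row_tail (xs : List Bool) (y : Bool) (ys : List Bool) :
    (row xs (y :: ys)).tail = row xs ys := by
  induction xs with
  | nil => simp [row, base]
  | cons x xs ih => simp [row, step, ih]

theorem lev_nil (ys : List Bool) : lev [] ys = ys.length := by
  cases ys <;> simp [lev, row, base]

theorem lev_cons_nil (x : Bool) (xs : List Bool) : lev (x :: xs) [] = lev xs [] + 1 := by
  simp [lev, row, step]

theorem lev_cons_cons (x y : Bool) (xs ys : List Bool) :
    lev (x :: xs) (y :: ys) =
      min (lev xs (y :: ys) + 1) (min (lev (x :: xs) ys + 1) (lev xs ys + cost x y)) := by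
  simp [lev, row, step, row_tail]

theorem cost_le (x y : Bool) : cost x y ≤ 1 := by
  unfold cost; split <;> omega

theorem lev_self (s : List Bool) : lev s s = 0 := by
  induction s with
  | nil => simp [lev_nil]
  | cons x s ih => rw [lev_cons_cons, ih]; simp [cost]

theorem lev_del (a : Bool) (v t : List Bool) : lev (a :: v) t ≤ lev v t + 1 := by
  cases t with
  | nil => rw [lev_cons_nil]
  | cons y t => rw [lev_cons_cons]; omega

theorem lev_right (v : List Bool) (y : Bool) (t : List Bool) : lev v (y :: t) ≤ lev v t + 1 := by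
  cases v with
  | nil => simp [lev_nil]
  | cons x v => rw [lev_cons_cons]; omega

theorem lev_ins (a : Bool) (v t : List Bool) : lev v t ≤ lev (a :: v) t + 1 := by
  induction t with
  | nil => rw [lev_cons_nil]; omega
  | cons y t ih =>
    have := lev_right v y t
    rw [lev_cons_cons]; omega

theorem lev_sub (a b : Bool) (v t : List Bool) : lev (a :: v) t ≤ lev (b :: v) t + 1 := by
  induction t with
  | nil => rw [lev_cons_nil, lev_cons_nil]; omega
  | cons y t ih =>
    have := cost_le a y
    rw [lev_cons_cons, lev_cons_cons]; omega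

theorem lev_cons_mono (x : Bool) (p q : List Bool) (h : ∀ t, lev p t ≤ lev q t + 1) (t : List Bool) :
    lev (x :: p) t ≤ lev (x :: q) t + 1 := by
  induction t with
  | nil => have := h []; rw [lev_cons_nil, lev_cons_nil]; omega
  | cons y t ih =>
    have h1 := h (y :: t)
    have h2 := h t
    rw [lev_cons_cons, lev_cons_cons]; omega

theorem lev_append_mono (u p q : List Bool) (h : ∀ t, lev p t ≤ lev q t + 1) (t : List Bool) :
    lev (u ++ p) t ≤ lev (u ++ q) t + 1 := by
  induction u generalizing t with
  | nil => simpa using h t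
  | cons x u ih => exact lev_cons_mono x _ _ ih t

theorem lev_adj {s s' : List Bool} (h : (editGraph Bool).Adj s s') (t : List Bool) :
    lev s t ≤ lev s' t + 1 := by
  rw [editGraph, SimpleGraph.fromRel_adj] at h
  obtain ⟨-, (⟨u, v, a, rfl, rfl⟩ | ⟨u, v, a, b, rfl, rfl⟩) |
    (⟨u, v, a, rfl, rfl⟩ | ⟨u, v, a, b, rfl, rfl⟩)⟩ := h
  · exact lev_append_mono u _ _ (lev_ins a v) t
  · exact lev_append_mono u _ _ (lev_sub a b v) t
  · exact lev_append_mono u _ _ (lev_del a v) t
  · exact lev_append_mono u _ _ (lev_sub b a v) t

theorem lev_le_walk {s t : List Bool} (w : (editGraph Bool).Walk s t) : lev s t ≤ w.length := by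
  induction w with
  | nil => simp [lev_self]
  | cons h w ih =>
    have := lev_adj h
    rename_i a b c
    have := this c
    simp only [SimpleGraph.Walk.length_cons]
    omega

theorem lev_le_of_edist {s t : List Bool} {k : ℕ} (h : (editGraph Bool).edist s t ≤ k) :
    lev s t ≤ k := by
  have hne : (editGraph Bool).edist s t ≠ ⊤ := ne_top_of_le_ne_top (ENat.natCast_ne_top k) h
  obtain ⟨w, hw⟩ := SimpleGraph.exists_walk_of_edist_ne_top hne
  have h1 := lev_le_walk w
  rw [← hw] at h
  have h2 : w.length ≤ k := by exact_mod_cast h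
  omega

theorem edist_ins (u v : List Bool) (a : Bool) :
    (editGraph Bool).edist (u ++ v) (u ++ a :: v) ≤ 1 := by
  rw [SimpleGraph.edist_le_one_iff_adj_or_eq]
  by_cases h : u ++ v = u ++ a :: v
  · exact Or.inr h
  · left
    rw [editGraph, SimpleGraph.fromRel_adj]
    exact ⟨h, Or.inl (Or.inl ⟨u, v, a, rfl, rfl⟩)⟩

theorem edist_sub (u v : List Bool) (a b : Bool) :
    (editGraph Bool).edist (u ++ a :: v) (u ++ b :: v) ≤ cost a b := by
  by_cases hab : a = b
  · subst hab; simp
  · have hc : cost a b = 1 := by simp [cost, hab]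
    rw [hc, Nat.cast_one, SimpleGraph.edist_le_one_iff_adj_or_eq]
    by_cases h : u ++ a :: v = u ++ b :: v
    · exact Or.inr h
    · left
      rw [editGraph, SimpleGraph.fromRel_adj]
      exact ⟨h, Or.inl (Or.inr ⟨u, v, a, b, rfl, rfl⟩)⟩

theorem edist_le_lev (s t u : List Bool) :
    (editGraph Bool).edist (u ++ s) (u ++ t) ≤ lev s t := by
  induction s generalizing t u with
  | nil =>
    induction t generalizing u with
    | nil => simp
    | cons y t ih =>
      have h1 := ih u
      have h2 := edist_ins u t y
      rw [lev_nil] at h1 ⊢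
      calc _ ≤ (editGraph Bool).edist (u ++ []) (u ++ t) + (editGraph Bool).edist (u ++ t) (u ++ y :: t) :=
            SimpleGraph.edist_triangle
        _ ≤ (t.length : ℕ∞) + 1 := add_le_add h1 h2
        _ = _ := by simp
  | cons x s ih =>
    have hdel : ∀ t : List Bool,
        (editGraph Bool).edist (u ++ x :: s) (u ++ t) ≤ ((lev s t + 1 : ℕ) : ℕ∞) := by
      intro t
      have h1 := ih t u
      have h2 := edist_ins u s x
      rw [SimpleGraph.edist_comm] at h2
      calc _ ≤ (editGraph Bool).edist (u ++ x :: s) (u ++ s) + (editGraph Bool).edist (u ++ s) (u ++ t) :=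
            SimpleGraph.edist_triangle
        _ ≤ 1 + (lev s t : ℕ∞) := add_le_add h2 h1
        _ = _ := by push_cast; ring
    induction t with
    | nil => rw [lev_cons_nil]; exact hdel []
    | cons y t iht =>
      have hins : (editGraph Bool).edist (u ++ x :: s) (u ++ y :: t)
          ≤ ((lev (x :: s) t + 1 : ℕ) : ℕ∞) := by
        calc _ ≤ (editGraph Bool).edist (u ++ x :: s) (u ++ t)
                + (editGraph Bool).edist (u ++ t) (u ++ y :: t) := SimpleGraph.edist_triangle
          _ ≤ (lev (x :: s) t : ℕ∞) + 1 := add_le_add iht (edist_ins u t y)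
          _ = _ := by push_cast; ring
      have hsub : (editGraph Bool).edist (u ++ x :: s) (u ++ y :: t)
          ≤ ((lev s t + cost x y : ℕ) : ℕ∞) := by
        have h1 := ih t (u ++ [x])
        simp only [List.append_assoc, List.singleton_append] at h1
        calc _ ≤ (editGraph Bool).edist (u ++ x :: s) (u ++ x :: t)
                + (editGraph Bool).edist (u ++ x :: t) (u ++ y :: t) := SimpleGraph.edist_triangle
          _ ≤ (lev s t : ℕ∞) + cost x y := add_le_add h1 (edist_sub u t x y)
          _ = _ := by push_cast; ring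
      rw [lev_cons_cons]
      rcases min_choice (lev s (y :: t) + 1) (min (lev (x :: s) t + 1) (lev s t + cost x y)) with h | h
      · rw [h]; exact hdel _
      · rw [h]
        rcases min_choice (lev (x :: s) t + 1) (lev s t + cost x y) with h' | h'
        · rw [h']; exact hins
        · rw [h']; exact hsub

theorem edist_le_of_lev {s t : List Bool} {k : ℕ} (h : lev s t ≤ k) :
    (editGraph Bool).edist s t ≤ k := by
  have := edist_le_lev s t []
  simp only [List.nil_append] at this
  exact this.trans (by exact_mod_cast h)

end Pool.Agent.P.MP_a407c4_co
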