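import Pool.Agent.P.MP_a407c4_co.Lev

namespace Pool.Agent.P.MP_a407c4_co

def allStr : ℕ → List (List Bool)
  | 0 => [[]]
  | n + 1 => (allStr n).map (false :: ·) ++ (allStr n).map (true :: ·)

theorem mem_allStr (s : List Bool) : s ∈ allStr s.length := by
  induction s with
  | nil => simp [allStr]
  | cons x s ih => cases x <;> simp [allStr, ih]

def bList : List (List Bool) :=
  [[false,false,false,false,false,false,false,true],
   [false,false,false,false,false,false,true,false],
   [false,false,false,false,false,false,true,true],
   [false,false,false,false,false,true,true,true],
   [false,false,false,false,true,false,true,true],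
   [false,false,false,true,false,false,true,true],
   [false,false,false,true,false,true,true,true],
   [false,false,false,true,true,true,true,true],
   [false,false,true,false,false,false,false,true],
   [false,false,true,false,false,false,true,true],
   [false,false,true,false,true,false,true,true],
   [false,false,true,false,true,true,true,true],
   [false,false,true,true,false,true,true,true],
   [false,false,true,true,true,false,true,true],
   [false,false,true,true,true,true,false,true],
   [false,false,true,true,true,true,true,false],
   [false,false,true,true,true,true,true,true],
   [false,true,false,false,false,false,false,false],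
   [false,true,false,false,false,false,true,true],
   [false,true,true,true,false,false,false,true],
   [false,true,true,true,true,false,true,true],
   [false,true,true,true,true,true,false,false],
   [false,true,true,true,true,true,true,true],
   [true,false,false,false,false,false,false,false],
   [true,false,false,false,false,false,true,true],
   [true,false,false,false,false,true,false,false],
   [true,false,false,false,true,true,true,false],
   [true,false,true,true,true,true,false,false],
   [true,false,true,true,true,true,true,true],
   [true,true,false,false,false,false,false,false],
   [true,true,false,false,false,false,false,true],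
   [true,true,false,false,false,false,true,false],
   [true,true,false,false,false,true,false,false],
   [true,true,false,false,true,false,false,false],
   [true,true,false,true,false,false,false,false],
   [true,true,false,true,false,true,false,false],
   [true,true,false,true,true,true,false,false],
   [true,true,false,true,true,true,true,false],
   [true,true,true,false,false,false,false,false],
   [true,true,true,false,true,false,false,false],
   [true,true,true,false,true,true,false,false],
   [true,true,true,true,false,true,false,false],
   [true,true,true,true,true,false,false,false],
   [true,true,true,true,true,true,false,false],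
   [true,true,true,true,true,true,false,true],
   [true,true,true,true,true,true,true,false]]

def bF (i : ℕ) : List Bool := bList.getD i []

def masks : List ℕ :=
  [308759888703, 1670252415, 3884320639, 3246800895,
   41465283455, 7575330815, 6568714239, 117776383,
   563286770999, 14017785855, 15158652927, 118833151,
   1181361555675, 117800959, 137556778750, 356908799,
   60709012327, 26869659647, 28043556863, 18694143,
   2332412794363, 34478063615, 171916525310, 356908799,
   4492781871539, 102334455, 137540795638, 357957375,
   9036848294080, 17661382753529, 35391006702842, 137779870972,
   858499450631, 295305117503, 298559913791, 18694015,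
   3638015745851, 51216255, 117833598, 356909055,
   6382500376371, 584151039863, 584217395062, 290848767,
   10548676787520, 18692107796473, 36490518331130, 137779871740,
   7439028777763, 1931111, 1701734, 291373055,
   12747633456448, 19791619948537, 38620823158522, 274333692,
   16011776091392, 22059362680753, 41988078042802, 274333684,
   69475868735616, 26526195776960, 61710567341248, 52776968257272,
   892875964679, 308760412991, 308827521855, 3877504895,
   3710426415899, 42531161983, 178895849342, 7604674559,
   6459138900275, 600810850167, 737225869174, 11833589759,
   10699537514496, 18774383557625, 36505282599642, 137780133628,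
   7558650528547, 613662197607, 754339153766, 20424048639,
   12915674056000, 19916845383673, 38747256585978, 172140396284,
   17309393092864, 23219809451953, 43149598588082, 137713549044,
   69540024871040, 26629274991808, 61813646556352, 52983126949112,
   8589442679555, 858475333383, 892851848966, 282417053503,
   13056334233856, 21216072990521, 39013410848298, 137780608892,
   17454348240128, 26176894435121, 43978460167698, 721829068660,
   70364591478784, 28278475324736, 63462913989696, 54082504359640,
   17385628762368, 25034433131297, 43729352061474, 274560868,
   70227152531456, 30271340148032, 65593151190080, 56075369709288,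
   70222857560064, 34703746393344, 70059917173760, 59374038810288,
   70059917164544, 69475801626752, 69475801102464, 61710366538944,
   892942287111, 308759888703, 308826997567, 3884320639,
   3710575312923, 42539026303, 179977978494, 7910727423,
   6459354120243, 600884774263, 738323727478, 16500670207,
   10701691289600, 18777052047609, 36505603328218, 137825221884,
   7558798639907, 613703092071, 755503597414, 29385572351,
   12917894415680, 19928103288825, 38756166196474, 172184960764,
   17313793966336, 23224490948529, 43154212451506, 137792716532,
   69540329349248, 26629301730496, 61813674866880, 52983208475896,
   8589591053059, 892875966215, 892943075078, 299969036095,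
   13056407109888, 21233773862713, 39031044087338, 137825165180,
   17454454146304, 26250228559665, 43978846154258, 721908219764,
   70364963063808, 28278569139520, 63462942301248, 54082720104152,
   17454387036416, 25112028672801, 43944419308066, 287127396,
   70364895956992, 30477525808448, 65661966611520, 56213023882984,
   70360567963648, 34875540858112, 70059980088320, 59580211658416,
   70060013633536, 69475868735616, 69475868211328, 61710567341248,
   8658176311299, 892875964679, 1030382027014, 308827521855,
   13193711845376, 21302627664665, 39032252137994, 179969458780,
   17591758356480, 26250362880305, 43980054462482, 738282702452,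
   70368452804608, 28294808338432, 63478240903168, 54098691098840,
   17591691772160, 26250329326369, 43979987353634, 755395987044,
   70368385695744, 30510945928256, 65694445077568, 56340665081064,
   70368352665600, 34909095198720, 70092460130304, 60742939458736,
   70090345152512, 69541366360192, 69542439078016, 61813644458176,
   17385533341952, 26181609849601, 43773829448194, 849885267716,
   70230947266560, 30579665404160, 65969189289984, 56495284427272,
   70230913712128, 35046534153472, 70367338562560, 61481674358288,
   70365223059456, 70348753623040, 70349892917248, 63428417887232,
   70230913712128, 35042239185152, 70367271452672, 60218953970208,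
   70365157523456, 70357343563776, 70358416797696, 65043259011136,
   70360829001728, 70361638526976, 70362711777280, 70025557402624,
   70364858204160, 70059917164544, 70059983732736, 69475801102464]

def table : List (List Bool × ℕ) := (allStr 8).zip masks

def s0 : List Bool := [false,false,true,true,false,false,true,true]

def t0 : List Bool := [true,true,false,false,true,true,false,false]

theorem check0 : table.map Prod.fst = allStr 8 := by decide +kernel

theorem check1 : ((List.range 46).all fun i =>
    (bF i).length == 8 && (decide (4 < lev s0 (bF i)) || decide (4 < lev t0 (bF i)))) = true := by
  decide +kernel

theorem check2 : (table.all fun p => decide (p.2 < 2 ^ 46) && (List.range 46).all fun i =>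
    !(p.2.testBit i) || decide (lev p.1 (bF i) ≤ 3)) = true := by
  decide +kernel

theorem check3 : (table.all fun p => table.all fun q =>
    (p.2 &&& q.2 != 0) || decide (3 < lev p.1 q.1)) = true := by
  decide +kernel

theorem check4 : lev s0 t0 ≤ 4 := by decide +kernel

theorem main : ∃ B : Set (List Bool), (∀ v ∈ B, v.length = 8) ∧
    Guaranteed 8 3 3 B ∧ ¬ Guaranteed 8 4 4 B := by
  have h1 : ∀ i < 46, (bF i).length = 8 ∧ (4 < lev s0 (bF i) ∨ 4 < lev t0 (bF i)) := by
    intro i hi
    have := List.all_eq_true.mp check1 i (List.mem_range.mpr hi)
    simpa using this
  refine ⟨{v | ∃ i < 46, v = bF i}, ?_, ?_, ?_⟩
  · rintro v ⟨i, hi, rfl⟩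
    exact (h1 i hi).1
  · intro s t hs ht hst
    have hst' : lev s t ≤ 3 := lev_le_of_edist hst
    have hmem : ∀ s : List Bool, s.length = 8 → ∃ m, (s, m) ∈ table := by
      intro s hs
      have h := mem_allStr s
      rw [hs, ← check0, List.mem_map] at h
      obtain ⟨⟨s', m⟩, hp, rfl⟩ := h
      exact ⟨m, hp⟩
    obtain ⟨m, hm⟩ := hmem s hs
    obtain ⟨m', hm'⟩ := hmem t ht
    have h3 := List.all_eq_true.mp (List.all_eq_true.mp check3 _ hm) _ hm'
    have h2 := List.all_eq_true.mp check2 _ hm
    have h2' := List.all_eq_true.mp check2 _ hm'
    simp only [Bool.or_eq_true, bne_iff_ne, ne_eq, decide_eq_true_eq, Bool.and_eq_true,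
      List.all_eq_true, List.mem_range, Bool.not_eq_true'] at h3 h2 h2'
    have hne : m &&& m' ≠ 0 := by
      rcases h3 with h | h
      · exact h
      · omega
    obtain ⟨i, hi⟩ := Nat.exists_testBit_of_ne_zero hne
    rw [Nat.testBit_and, Bool.and_eq_true] at hi
    have hi46 : i < 46 := by
      by_contra hc
      have : m < 2 ^ i := lt_of_lt_of_le h2.1 (Nat.pow_le_pow_right (by norm_num) (by omega))
      rw [Nat.testBit_lt_two_pow this] at hi
      exact absurd hi.1 (by simp)
    refine ⟨bF i, ⟨i, hi46, rfl⟩, (h1 i hi46).1, edist_le_of_lev ?_, edist_le_of_lev ?_⟩
    · rcases h2.2 i hi46 with h | h
      · rw [hi.1] at h; exact absurd h (by simp)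
      · exact h
    · rcases h2'.2 i hi46 with h | h
      · rw [hi.2] at h; exact absurd h (by simp)
      · exact h
  · intro h
    obtain ⟨v, ⟨i, hi, rfl⟩, -, ha, hb⟩ := h s0 t0 rfl rfl (edist_le_of_lev check4)
    have ha' := lev_le_of_edist ha
    have hb' := lev_le_of_edist hb
    rcases (h1 i hi).2 with h | h <;> omega

end Pool.Agent.P.MP_a407c4_co
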