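import Pool.Agent.P.MP_a407c4_co.Align

/-! For which radii an `(r,r)`-guaranteed set is `(r+1,r+1)`-guaranteed. -/

namespace Pool.Agent.P.MP_a407c4_co.Par

variable {A : Type}

/-- Even radius: an alignment of odd cost between strings of equal length has a substitution. -/
theorem even_step {n r : ℕ} (hr : Even r) {B : Set (List A)} (h : Guaranteed n r r B) :
    Guaranteed n (r + 1) (r + 1) B := by
  rw [guaranteed_iff] at h ⊢
  rintro s t hs ht ⟨σ, i, d, al, hc⟩
  have hl := al.len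
  obtain ⟨m, rfl⟩ := hr
  by_cases h1 : σ + i + d ≤ m + m
  · obtain ⟨v, hv, h2, h3, h4⟩ := h s t hs ht (al.ed h1)
    exact ⟨v, hv, h2, h3.mono (by omega), h4.mono (by omega)⟩
  · obtain ⟨z, z1, z2, z3⟩ := al.onesub (by omega)
    obtain ⟨v, hv, h2, h3, h4⟩ := h z t (z1.trans hs) ht (z3.mono (by omega))
    exact ⟨v, hv, h2, (z2.symm.trans h3).mono (by omega), h4.mono (by omega)⟩

/-- Radius one. -/
theorem one_step [Nontrivial A] {n : ℕ} {B : Set (List A)} (h : Guaranteed n 1 1 B) :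
    Guaranteed n 2 2 B := by
  rw [guaranteed_iff] at h ⊢
  rintro s t hs ht ⟨σ, i, d, al, hc⟩
  have hl := al.len
  by_cases h1 : σ + i + d ≤ 1
  · obtain ⟨v, hv, h2, h3, h4⟩ := h s t hs ht (al.ed h1)
    exact ⟨v, hv, h2, h3.mono (by omega), h4.mono (by omega)⟩
  by_cases h0 : 1 ≤ σ
  · obtain ⟨z, z1, z2, z3⟩ := al.onesub h0
    obtain ⟨v, hv, h2, h3, h4⟩ := h z t (z1.trans hs) ht (z3.mono (by omega))
    exact ⟨v, hv, h2, (z2.symm.trans h3).mono (by omega), h4.mono (by omega)⟩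
  obtain ⟨p, a, q, rfl, e⟩ := al.onedel (by omega)
  obtain ⟨a', ha⟩ := exists_ne a
  obtain ⟨v, hv, h2, h3, h4⟩ := h (p ++ a :: q) (p ++ a' :: q) hs (by simpa using hs)
    (((Ed.refl p 0).append ((Ed.refl q 0).sub a a')).mono (by omega))
  have key : ∀ c : A, Ed (p ++ c :: q) v 1 → (∃ b, v = p ++ b :: q) ∨ v[p.length]? = some c := by
    rintro c ⟨σ', i', d', al', hc'⟩
    have hl' := al'.len
    have : (p ++ c :: q).length = n := by simpa using hs
    obtain ⟨j, b, rfl⟩ := al'.ham a (by omega) (by omega) (by omega)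
    by_cases hj : j = p.length
    · left; exact ⟨b, by simp [hj]⟩
    · right; rw [List.getElem?_set_ne hj]; simp
  have : ∃ b, v = p ++ b :: q := by
    rcases key a h3 with h5 | h5
    · exact h5
    rcases key a' h4 with h6 | h6
    · exact h6
    · exact absurd (Option.some.inj (h6.symm.trans h5)) ha
  obtain ⟨b, rfl⟩ := this
  exact ⟨_, hv, h2, h3.mono (by omega),
    (e.symm.trans ((Ed.refl p 0).append ((Ed.refl q 0).ins b))).mono (by omega)⟩

/-- The outer parts `z`, `w` of a common neighbour of `x` and `y`, at cost at most `G`. -/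
def Near (k : ℕ) (xL xR yL yR z w : List A) (G : ℕ) : Prop :=
  ∃ a1 a2 b1 b2 : ℕ, Ed z xL a1 ∧ Ed w xR a2 ∧ Ed z yL b1 ∧ Ed w yR b2 ∧
    a1 + a2 ≤ G ∧ b1 + b2 ≤ G ∧ z.length + w.length + G + 1 ≤ xL.length + xR.length + 2 * k ∧
    xL.length + xR.length + G + 1 ≤ z.length + w.length + 2 * k

theorem near {k : ℕ} (hk : 2 ≤ k) {xL xR yL yR : List A} {s1 i1 d1 s2 i2 d2 : ℕ}
    (h1 : Al xL yL s1 i1 d1) (h2 : Al xR yR s2 i2 d2)
    (hc : s1 + i1 + d1 + (s2 + i2 + d2) + 1 ≤ 2 * k)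
    (hx : xL.length + xR.length = yL.length + yR.length) :
    ∃ (z w : List A) (a1 a2 b1 b2 : ℕ), Ed z xL a1 ∧ Ed w xR a2 ∧ Ed z yL b1 ∧ Ed w yR b2 ∧
      a1 + a2 + 2 ≤ 2 * k ∧ b1 + b2 + 2 ≤ 2 * k ∧ z.length = xL.length ∧
      w.length = xR.length := by
  have l1 := h1.len
  have l2 := h2.len
  by_cases e1 : 1 ≤ s1
  · obtain ⟨z, z1, z2, z3⟩ := h1.onesub e1
    exact ⟨z, xR, _, _, _, _, z2, Ed.refl _ 0, z3, h2.ed le_rfl, by omega, by omega, z1, rfl⟩
  by_cases e2 : 1 ≤ s2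
  · obtain ⟨z, z1, z2, z3⟩ := h2.onesub e2
    exact ⟨xL, z, _, _, _, _, Ed.refl _ 0, z2, h1.ed le_rfl, z3, by omega, by omega, rfl, z1⟩
  · exact ⟨xL, xR, _, _, _, _, Ed.refl _ 0, Ed.refl _ 0, h1.ed le_rfl, h2.ed le_rfl, by omega,
      by omega, rfl, rfl⟩

/-- One of the two strings is cut outside the range between the two shifted words. -/
theorem core0 {k tl sr : ℕ} (hk : 2 ≤ k) {xL xR yL yR : List A}
    {s1 i1 d1 s2 i2 d2 : ℕ} (h1 : Al xL yL s1 i1 d1) (h2 : Al xR yR s2 i2 d2)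
    (hc : s1 + i1 + d1 + (s2 + i2 + d2) + 1 ≤ 2 * k)
    (hx : xL.length + xR.length = tl + k + sr) (hy : yL.length + yR.length = tl + k + sr) :
    (∃ (z w : List A) (G : ℕ), Near k xL xR yL yR z w G ∧
      (G + 2 + z.length + sr ≤ tl + k + w.length ∨ G + 2 + tl + w.length ≤ z.length + (sr + k))) ∨
    (tl < xL.length ∧ xL.length < tl + k ∧ tl < yL.length ∧ yL.length < tl + k) := by
  by_cases cx : tl + k ≤ xL.length ∨ xL.length ≤ tl
  · obtain ⟨z, w, a1, a2, b1, b2, p1, p2, p3, p4, q1, q2, q3, q4⟩ := near hk h1 h2 hc (by omega)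
    exact Or.inl ⟨z, w, 2 * k - 2, ⟨a1, a2, b1, b2, p1, p2, p3, p4, by omega, by omega, by omega,
      by omega⟩, by omega⟩
  by_cases cy : tl + k ≤ yL.length ∨ yL.length ≤ tl
  · obtain ⟨z, w, a1, a2, b1, b2, p1, p2, p3, p4, q1, q2, q3, q4⟩ :=
      near hk h1.symm h2.symm (by omega) (by omega)
    exact Or.inl ⟨z, w, 2 * k - 2, ⟨b1, b2, a1, a2, p3, p4, p1, p2, by omega, by omega, by omega,
      by omega⟩, by omega⟩
  · exact Or.inr (by omega)

/-- With a third letter `c`. -/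
theorem core3 [DecidableEq A] (c : A) {k tl sr : ℕ} (hk : 2 ≤ k) {xL xR yL yR : List A}
    {s1 i1 d1 s2 i2 d2 : ℕ} (h1 : Al xL yL s1 i1 d1) (h2 : Al xR yR s2 i2 d2)
    (hc : s1 + i1 + d1 + (s2 + i2 + d2) + 1 ≤ 2 * k)
    (hx : xL.length + xR.length = tl + k + sr) (hy : yL.length + yR.length = tl + k + sr) :
    ∃ (z w : List A) (G : ℕ), Near k xL xR yL yR z w G ∧
      (G + 2 + z.length + sr ≤ z.count c + (tl + k) + w.length ∨
        G + 2 + tl + w.length ≤ z.length + w.count c + (sr + k)) := by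
  have l1 := h1.len
  have l2 := h2.len
  rcases core0 hk h1 h2 hc hx hy with ⟨z, w, G, h3, h4⟩ | h3
  · exact ⟨z, w, G, h3, by omega⟩
  by_cases cs : s2 ≤ s1
  · obtain ⟨z, z1, z2, z3, z4⟩ := h1.inter c s2 cs
    obtain ⟨w, w1, w2, w3⟩ := h2.union
    exact ⟨z, w, s1 + s2 + max (d1 + i2) (i1 + d2), ⟨_, _, _, _, z3, w2, z4, w3, by omega,
      by omega, by omega, by omega⟩, by omega⟩
  · obtain ⟨w, z1, z2, z3, z4⟩ := h2.inter c s1 (by omega)
    obtain ⟨z, w1, w2, w3⟩ := h1.union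
    exact ⟨z, w, s1 + s2 + max (d1 + i2) (i1 + d2), ⟨_, _, _, _, w2, z3, w3, z4, by omega,
      by omega, by omega, by omega⟩, by omega⟩

theorem num1 {k ca cb D t p q p' q' : ℕ} (hk : 3 ≤ k) (h1 : p + q' = q + p')
    (hc : D + 2 * t + (p + q + p' + q') + 1 ≤ 2 * k) (h2 : cb + p + q = ca + p' + q')
    (h3 : 2 * k ≤ ca + cb + 4) (h4 : ca % 2 = 0) (h5 : cb % 2 = 0)
    (h6 : ¬ (k = 4 ∧ D = 7 ∧ cb = 2)) :
    ∃ a b v, a + b + v = D ∧ a ≤ ca ∧ b ≤ cb ∧
      2 * t + v + b + p + q + (v + p) + 1 ≤ 2 * k + q ∧ 2 * t + v + b + p + q + q + 1 ≤ 2 * k + p ∧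
      2 * t + v + a + p' + q' + (v + p) + 1 ≤ 2 * k + q ∧
      2 * t + v + a + p' + q' + q + 1 ≤ 2 * k + p ∧
      2 * t + v + b + p + q + (v + q) + 1 ≤ 2 * k + p ∧ 2 * t + v + b + p + q + p + 1 ≤ 2 * k + q ∧
      2 * t + v + a + p' + q' + (v + q) + 1 ≤ 2 * k + p ∧
      2 * t + v + a + p' + q' + p + 1 ≤ 2 * k + q := by
  by_cases c1 : D ≤ ca
  · exact ⟨D, 0, 0, by omega⟩
  by_cases c2 : D ≤ ca + cb
  · exact ⟨ca, D - ca, 0, by omega⟩
  · exact ⟨ca, cb, D - ca - cb, by omega⟩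

/-- Without a third letter, lengths alone decide all cases but two when `k ≥ 3`. -/
theorem core2 {k tl sr : ℕ} (hk : 3 ≤ k) {xL xR yL yR : List A}
    {s1 i1 d1 s2 i2 d2 : ℕ} (h1 : Al xL yL s1 i1 d1) (h2 : Al xR yR s2 i2 d2)
    (hc : s1 + i1 + d1 + (s2 + i2 + d2) + 1 ≤ 2 * k)
    (hx : xL.length + xR.length = tl + k + sr) (hy : yL.length + yR.length = tl + k + sr) :
    (∃ (z w : List A) (G : ℕ), Near k xL xR yL yR z w G ∧
      (G + 2 + z.length + sr ≤ tl + k + w.length ∨ G + 2 + tl + w.length ≤ z.length + (sr + k))) ∨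
    (k = 4 ∧ xL.length = tl + 2 ∧ (s1 = 7 ∨ s2 = 7)) := by
  have l1 := h1.len
  have l2 := h2.len
  rcases core0 (by omega) h1 h2 hc hx hy with h3 | h3
  · exact Or.inl h3
  by_cases hsp : k = 4 ∧ xL.length = tl + 2 ∧ (s1 = 7 ∨ s2 = 7)
  · exact Or.inr hsp
  left
  obtain ⟨X, hX⟩ : ∃ X, xL.length = tl + X := ⟨xL.length - tl, by omega⟩
  obtain ⟨Y, hY⟩ : ∃ Y, yL.length = tl + Y := ⟨yL.length - tl, by omega⟩
  rcases le_total (X + Y) k with h | h <;> rcases le_total s2 s1 with h' | h'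
  · obtain ⟨a, b, v, f⟩ := num1 (k := k) (ca := 2 * (k - Y - 1)) (cb := 2 * (k - X - 1))
      (D := s1 - s2) (t := s2) (p := d1) (q := i2) (p' := i1) (q' := d2) hk (by omega) (by omega)
      (by omega) (by omega) (by omega) (by omega) (by omega)
    obtain ⟨z, z1, z2, z3⟩ := h1.imix a b (v + s2) (by omega)
    obtain ⟨w, w1, w2, w3⟩ := h2.umix 0 0 s2 (by omega)
    exact ⟨z, w, max (2 * s2 + v + b + d1 + i2) (2 * s2 + v + a + i1 + d2),
      ⟨_, _, _, _, z2, w2, z3, w3, by omega, by omega, by omega, by omega⟩, Or.inl (by omega)⟩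
  · obtain ⟨a, b, v, f⟩ := num1 (k := k) (ca := 2 * (k - Y - 1)) (cb := 2 * (k - X - 1))
      (D := s2 - s1) (t := s1) (p := d1) (q := i2) (p' := i1) (q' := d2) hk (by omega) (by omega)
      (by omega) (by omega) (by omega) (by omega) (by omega)
    obtain ⟨z, z1, z2, z3⟩ := h1.imix 0 0 s1 (by omega)
    obtain ⟨w, w1, w2, w3⟩ := h2.umix a b (v + s1) (by omega)
    exact ⟨z, w, max (2 * s1 + v + b + d1 + i2) (2 * s1 + v + a + i1 + d2),
      ⟨_, _, _, _, z2, w2, z3, w3, by omega, by omega, by omega, by omega⟩, Or.inl (by omega)⟩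
  · obtain ⟨b, a, v, f⟩ := num1 (k := k) (ca := 2 * (X - 1)) (cb := 2 * (Y - 1))
      (D := s1 - s2) (t := s2) (p := d1) (q := i2) (p' := i1) (q' := d2) hk (by omega) (by omega)
      (by omega) (by omega) (by omega) (by omega) (by omega)
    obtain ⟨z, z1, z2, z3⟩ := h1.umix a b (v + s2) (by omega)
    obtain ⟨w, w1, w2, w3⟩ := h2.imix 0 0 s2 (by omega)
    exact ⟨z, w, max (2 * s2 + v + a + d1 + i2) (2 * s2 + v + b + i1 + d2),
      ⟨_, _, _, _, z2, w2, z3, w3, by omega, by omega, by omega, by omega⟩, Or.inr (by omega)⟩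
  · obtain ⟨b, a, v, f⟩ := num1 (k := k) (ca := 2 * (X - 1)) (cb := 2 * (Y - 1))
      (D := s2 - s1) (t := s1) (p := d1) (q := i2) (p' := i1) (q' := d2) hk (by omega) (by omega)
      (by omega) (by omega) (by omega) (by omega) (by omega)
    obtain ⟨z, z1, z2, z3⟩ := h1.umix 0 0 s1 (by omega)
    obtain ⟨w, w1, w2, w3⟩ := h2.imix a b (v + s1) (by omega)
    exact ⟨z, w, max (2 * s1 + v + a + d1 + i2) (2 * s1 + v + b + i1 + d2),
      ⟨_, _, _, _, z2, w2, z3, w3, by omega, by omega, by omega, by omega⟩, Or.inr (by omega)⟩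

/-- An alignment after a common tail is added. -/
def Lo (z u : List A) (c : ℕ) : Prop := ∃ M s i d, Al (z ++ M) (u ++ M) s i d ∧ s + i + d ≤ c

/-- An alignment after a common head is added. -/
def Hi (w u : List A) (c : ℕ) : Prop := ∃ N s i d, Al (N ++ w) (N ++ u) s i d ∧ s + i + d ≤ c

theorem Lo.bound [DecidableEq A] (e : A) {z u : List A} {c : ℕ} (h : Lo z u c) :
    z.count e + u.length ≤ u.count e + c + z.length ∧ z.length ≤ c + u.length ∧
      u.length ≤ c + z.length := by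
  obtain ⟨M, s, i, d, h, hc⟩ := h
  have h1 := h.len
  have h2 := h.cnt e
  simp only [List.length_append, List.count_append] at h1 h2
  omega

theorem Hi.bound [DecidableEq A] (e : A) {z u : List A} {c : ℕ} (h : Hi z u c) :
    z.count e + u.length ≤ u.count e + c + z.length ∧ z.length ≤ c + u.length ∧
      u.length ≤ c + z.length := by
  obtain ⟨M, s, i, d, h, hc⟩ := h
  have h1 := h.len
  have h2 := h.cnt e
  simp only [List.length_append, List.count_append] at h1 h2
  omega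

/-- The outer parts are at least `G + 2` away from those of one of the shifted words. -/
def Far (sL sR tL tR z w : List A) (G : ℕ) : Prop :=
  ∀ c1 c3 e1 e3, Lo z sL c1 → Hi w sR c3 → Lo z tL e1 → Hi w tR e3 →
    G + 2 ≤ c1 + c3 ∨ G + 2 ≤ e1 + e3

/-- For every cut and every close pair there are good outer parts. -/
def Core (k : ℕ) (P C Q : List A) : Prop :=
  ∀ tL R sR : List A, C = tL ++ (R ++ sR) → ∀ (xL xR yL yR : List A) (s1 i1 d1 s2 i2 d2 : ℕ),
    Al xL yL s1 i1 d1 → Al xR yR s2 i2 d2 → s1 + i1 + d1 + (s2 + i2 + d2) + 1 ≤ 2 * k →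
    xL.length + xR.length = tL.length + k + sR.length →
    yL.length + yR.length = tL.length + k + sR.length →
    ∃ z w G, Near k xL xR yL yR z w G ∧ Far (P ++ tL) sR tL (sR ++ Q) z w G

theorem core_three [DecidableEq A] (c : A) {k : ℕ} (hk : 2 ≤ k) {P C Q : List A}
    (hP : P.length = k) (hQ : Q.length = k) (cs : c ∉ P ++ C) (ct : c ∉ C ++ Q) : Core k P C Q := by
  rintro tL R sR rfl xL xR yL yR s1 i1 d1 s2 i2 d2 h1 h2 hc hx hy
  obtain ⟨z, w, G, h3, h4⟩ := core3 c hk h1 h2 hc hx hy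
  refine ⟨z, w, G, h3, fun c1 c3 e1 e3 p1 p2 p3 p4 => ?_⟩
  have q1 := p1.bound c
  have q2 := p2.bound c
  have q3 := p3.bound c
  have q4 := p4.bound c
  simp only [List.mem_append, not_or] at cs ct
  have k1 : (P ++ tL).count c = 0 := List.count_eq_zero.2 (by simp only [List.mem_append]; tauto)
  have k2 : (sR ++ Q).count c = 0 := List.count_eq_zero.2 (by simp only [List.mem_append]; tauto)
  rw [List.length_append] at q1 q4
  omega

/-- Four consecutive places hold the letter `a` at most once. -/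
def Sparse [DecidableEq A] (a : A) (u : List A) : Prop :=
  ∀ p R q : List A, u = p ++ (R ++ q) → R.length ≤ 4 → R.count a ≤ 1

theorem two_words [DecidableEq A] {a b : A} (hab : a ≠ b) (hA : ∀ u : A, u = a ∨ u = b)
    {x y : List A} (h : Al x y 7 0 0) : (∃ s', s' < 7 ∧ Al x y s' 0 0) ∨
    ∃ p1 q1 p0 q0 : List A, (p1 ++ q1).length = x.length ∧ (p0 ++ q0).length = x.length ∧
      p0.length = p1.length ∧ p1.count a = p0.count a + 4 ∧ Ed (p1 ++ q1) x 4 ∧ Ed (p1 ++ q1) y 4 ∧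
      Ed (p0 ++ q0) x 4 ∧ Ed (p0 ++ q0) y 4 := by
  rcases h.first hab hA rfl rfl 4 (by omega) with h1 |
    ⟨p1, p0, px, py, x', y', j, j', s', rfl, rfl, h1, h2, h3, h4, h5, h6, k1, k2, k3, k4⟩
  · exact Or.inl h1
  obtain ⟨q1, a1, a2, a3⟩ := h1.umix (3 - min j 3) (min j 3) 0 (by omega)
  obtain ⟨q0, b1, b2, b3⟩ := h1.umix (3 - min j' 3) (min j' 3) 0 (by omega)
  exact Or.inr ⟨p1, q1, p0, q0, by simp only [List.length_append]; omega,
    by simp only [List.length_append]; omega, by omega, h6, (k1.append a2).mono (by omega),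
    (k2.append a3).mono (by omega), (k3.append b2).mono (by omega), (k4.append b3).mono (by omega)⟩

theorem core_two [DecidableEq A] {a b : A} (hab : a ≠ b) (hA : ∀ u : A, u = a ∨ u = b) {k : ℕ}
    (hk : 3 ≤ k) {P C Q : List A} (hP : P.length = k) (hQ : Q.length = k)
    (cs : Sparse a (P ++ C)) (ct : Sparse a (C ++ Q)) : Core k P C Q := by
  rintro tL R sR rfl xL xR yL yR s1 i1 d1 s2 i2 d2 h1 h2 hc hx hy
  have easy : (∃ (z w : List A) (G : ℕ), Near k xL xR yL yR z w G ∧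
      (G + 2 + z.length + sR.length ≤ tL.length + k + w.length ∨
        G + 2 + tL.length + w.length ≤ z.length + (sR.length + k))) →
      ∃ z w G, Near k xL xR yL yR z w G ∧ Far (P ++ tL) sR tL (sR ++ Q) z w G := by
    rintro ⟨z, w, G, h3, h4⟩
    refine ⟨z, w, G, h3, fun c1 c3 e1 e3 p1 p2 p3 p4 => ?_⟩
    have q1 := p1.bound a
    have q2 := p2.bound a
    have q3 := p3.bound a
    have q4 := p4.bound a
    rw [List.length_append] at q1 q4
    omega
  rcases core2 hk h1 h2 hc hx hy with h3 | ⟨rfl, h4, rfl | rfl⟩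
  · exact easy h3
  · obtain rfl : xR = yR := h2.zero (by omega)
    rcases two_words hab hA (h1.cast rfl (by omega) (by omega)) with ⟨s', h5, h6⟩ |
      ⟨p1, q1, p0, q0, l1, l0, l2, hcnt, k1, k2, k3, k4⟩
    · rcases core2 hk h6 (Al.refl xR) (by omega) hx hy with h3 | h3
      · exact easy h3
      · omega
    by_cases hF : Far (P ++ tL) sR tL (sR ++ Q) (p1 ++ q1) xR 4
    · exact ⟨_, _, 4, ⟨4, 0, 4, 0, k1, Ed.refl _ _, k2, Ed.refl _ _, by omega, by omega, by omega,
        by omega⟩, hF⟩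
    refine ⟨_, _, 4, ⟨4, 0, 4, 0, k3, Ed.refl _ _, k4, Ed.refl _ _, by omega, by omega, by omega,
      by omega⟩, fun c1 c3 e1 e3 _ _ p3 p4 => Or.inr ?_⟩
    simp only [Far, not_forall, not_or, not_le] at hF
    obtain ⟨f1, f3, g1, g3, ⟨M, s, i, d, al, hb⟩, r2, -, -, r5, -⟩ := hF
    obtain ⟨M', s', i', d', al', hb'⟩ := p3
    have q2 := r2.bound a
    have q4 := p4.bound a
    have m1 := al.len
    have m2 := al'.len
    have m3 := List.count_le_length (a := a) (l := p1)
    rw [List.append_assoc] at al al'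
    have n1 := (al.pre a).1
    have n2 := (al'.pre a).2
    have n3 := cs [] P _ rfl (by omega)
    simp only [List.length_append] at *
    by_contra hlt
    obtain ⟨rfl, rfl⟩ : i = 2 ∧ d = 0 := by omega
    obtain ⟨rfl, rfl⟩ : i' = 0 ∧ d' = 2 := by omega
    rw [List.take_append_of_le_length (by rw [List.length_append]; omega), List.take_append,
      List.take_of_length_le (by omega), List.count_append,
      show p1.length + 2 - P.length = p0.length - 2 by omega] at n1
    rw [List.take_append_of_le_length (by omega)] at n2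
    omega
  · obtain rfl : xL = yL := h1.zero (by omega)
    rcases two_words hab hA (h2.cast rfl (by omega) (by omega)) with ⟨s', h5, h6⟩ |
      ⟨p1, q1, p0, q0, l1, l0, l2, hcnt, k1, k2, k3, k4⟩
    · rcases core2 hk (Al.refl xL) h6 (by omega) hx hy with h3 | h3
      · exact easy h3
      · omega
    by_cases hF : Far (P ++ tL) sR tL (sR ++ Q) xL (p1 ++ q1) 4
    · exact ⟨_, _, 4, ⟨0, 4, 0, 4, Ed.refl _ _, k1, Ed.refl _ _, k2, by omega, by omega, by omega,
        by omega⟩, hF⟩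
    refine ⟨_, _, 4, ⟨0, 4, 0, 4, Ed.refl _ _, k3, Ed.refl _ _, k4, by omega, by omega, by omega,
      by omega⟩, fun c1 c3 e1 e3 p1' p2 _ _ => Or.inl ?_⟩
    simp only [Far, not_forall, not_or, not_le] at hF
    obtain ⟨f1, f3, g1, g3, -, -, r3, ⟨M, s, i, d, al, hb⟩, -, r6⟩ := hF
    obtain ⟨M', s', i', d', al', hb'⟩ := p2
    have q2 := r3.bound a
    have q4 := p1'.bound a
    have m1 := al.len
    have m2 := al'.len
    have m3 := List.count_le_length (a := a) (l := p1)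
    rw [← List.append_assoc] at al al'
    have n1 := (al.pre a).1
    have n2 := (al'.pre a).2
    have n3 := ct (tL ++ (R ++ (sR ++ Q).take (p0.length - 2)))
      (((sR ++ Q).drop (p0.length - 2)).take 4) (((sR ++ Q).drop (p0.length - 2)).drop 4)
      (by simp only [List.append_assoc, List.take_append_drop]) (List.length_take_le _ _)
    simp only [List.length_append] at *
    by_contra hlt
    obtain ⟨rfl, rfl⟩ : i = 2 ∧ d = 0 := by omega
    obtain ⟨rfl, rfl⟩ : i' = 0 ∧ d' = 2 := by omega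
    rw [List.take_append, List.take_of_length_le (by omega), List.count_append, List.count_append,
      show M.length + p1.length + 2 - M.length = p0.length - 2 + 4 by omega, List.take_add,
      List.count_append, List.take_append_of_le_length (by omega)] at n1
    rw [List.take_append, List.take_of_length_le (by omega), List.count_append, List.count_append,
      show M'.length + p0.length - 2 - M'.length = p0.length - 2 by omega] at n2
    omega

end Pool.Agent.P.MP_a407c4_co.Par
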