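import Pool.Agent.P.MP_a407c4_co.Parity
import Pool.Agent.P.MP_a407c4_co.Main

/-! Two shifted rigid words: the complement of their common neighbourhood is guaranteed. -/

namespace Pool.Agent.P.MP_a407c4_co.Par

variable {A : Type}

/-- Two occurrences of a block of length `T` are equal or at least `T` places apart. -/
def Rigid (u : List A) (T : ℕ) : Prop :=
  ∀ p1 q1 p2 q2 R : List A, u = p1 ++ (R ++ q1) → u = p2 ++ (R ++ q2) → R.length = T →
    p1.length < p2.length + T → p2.length < p1.length + T → p1.length = p2.length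

theorem Rigid.eq {u : List A} {T : ℕ} (h : Rigid u T) {p1 q1 p2 q2 R : List A}
    (e1 : u = p1 ++ (R ++ q1)) (e2 : u = p2 ++ (R ++ q2)) (hR : R.length = T)
    (h1 : p1.length < p2.length + T) (h2 : p2.length < p1.length + T) : p1 = p2 ∧ q1 = q2 := by
  obtain ⟨a, b⟩ := List.append_inj (e1.symm.trans e2) (h p1 q1 p2 q2 R e1 e2 hR h1 h2)
  exact ⟨a, List.append_cancel_left b⟩

/-- A cheap alignment with a rigid word splits at the two long common blocks. -/
theorem cut [DecidableEq A] {a a' : A} (hab : a ≠ a') {T b g e : ℕ} {uL R1 R3 uR z w : List A}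
    (hu : Rigid (uL ++ (R1 ++ (List.replicate e a' ++ (R3 ++ uR)))) T)
    (h1 : (b + 1) * T ≤ R1.length) (h3 : (b + 1) * T ≤ R3.length)
    (hz : z.length + b < uL.length + T) (hz' : uL.length + b < z.length + T)
    (hg : g + b < T) (h2 : e + b < T)
    (h : Ed (z ++ (R1 ++ (List.replicate g a ++ (R3 ++ w))))
      (uL ++ (R1 ++ (List.replicate e a' ++ (R3 ++ uR)))) b) :
    ∃ c1 c2 c3, c1 + c2 + c3 ≤ b ∧ Lo z uL c1 ∧ g ≤ c2 ∧ e ≤ c2 ∧ Hi w uR c3 := by
  obtain ⟨s, i, d, al, hb⟩ := h
  obtain ⟨M1, R, M2, y1, y2, s1, i1, d1, s2, i2, d2, rfl, hR, e0, a1, a2, rfl, rfl, rfl⟩ :=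
    run T b al hb h1
  have l1 := a1.len
  rw [List.length_append] at l1
  obtain ⟨rfl, rfl⟩ := hu.eq (p2 := uL ++ M1) (q2 := M2 ++ (List.replicate e a' ++ (R3 ++ uR))) e0
    (by simp) hR (by rw [List.length_append]; omega) (by rw [List.length_append]; omega)
  rw [← List.append_assoc] at a2
  obtain ⟨N1, R', N2, y3, y4, s3, i3, d3, s4, i4, d4, rfl, hR', e', a3, a4, rfl, rfl, rfl⟩ :=
    run T b a2 (by omega) h3
  have l3 := a3.len
  simp only [List.length_append, List.length_replicate] at l3
  obtain ⟨e3, rfl⟩ := hu.eq (p1 := uL ++ (M1 ++ (R ++ y3))) (q1 := y4)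
    (p2 := uL ++ (M1 ++ (R ++ (M2 ++ (List.replicate e a' ++ N1))))) (q2 := N2 ++ uR)
    (by simp only [List.append_assoc] at e' ⊢; rw [e']) (by simp) hR'
    (by simp only [List.length_append, List.length_replicate]; omega)
    (by simp only [List.length_append, List.length_replicate]; omega)
  obtain rfl : y3 = M2 ++ (List.replicate e a' ++ N1) := by simpa using e3
  have k1 := a3.cnt a
  have k2 := a3.symm.cnt a'
  have z1 : (List.replicate e a').count a = 0 :=
    List.count_eq_zero.2 fun h => hab (List.eq_of_mem_replicate h)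
  have z2 : (List.replicate g a).count a' = 0 :=
    List.count_eq_zero.2 fun h => hab (List.eq_of_mem_replicate h).symm
  simp only [List.count_append, List.count_replicate_self, z1, z2] at k1 k2
  exact ⟨s1 + i1 + d1, s3 + i3 + d3, s4 + i4 + d4, by omega, ⟨_, _, _, _, a1, le_rfl⟩, by omega,
    by omega, ⟨_, _, _, _, a4, le_rfl⟩⟩

/-- Every long block contains a long run of the letter `b`. -/
def Gap (u : List A) (b : A) (T : ℕ) : Prop :=
  ∀ (p R q : List A) (m : ℕ), u = p ++ (R ++ q) → m < T → R.length = T + m →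
    ∃ R1 R3, R = R1 ++ (List.replicate m b ++ R3)

/-- The word with `a` at the places divisible by `T` and `b` elsewhere, places `p` to `p+m-1`. -/
def seg (a b : A) (T p m : ℕ) : List A := (List.range' p m).map fun j => if T ∣ j then a else b

theorem seg_length (a b : A) (T p m : ℕ) : (seg a b T p m).length = m := by simp [seg]

theorem seg_add (a b : A) (T p m m' : ℕ) :
    seg a b T p (m + m') = seg a b T p m ++ seg a b T (p + m) m' := by
  simp [seg, ← List.range'_append_1]

theorem seg_get {a b : A} {T p m : ℕ} {p1 R q1 : List A} (e : seg a b T p m = p1 ++ (R ++ q1))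
    {j : ℕ} (hj : j < R.length) :
    R[j]? = some (if T ∣ p + (p1.length + j) then a else b) := by
  have hl := congrArg List.length e
  rw [seg_length, List.length_append, List.length_append] at hl
  have h1 : (p1 ++ (R ++ q1))[p1.length + j]? = R[j]? := by
    rw [List.getElem?_append_right (by omega), Nat.add_sub_cancel_left,
      List.getElem?_append_left hj]
  rw [← h1, ← e, seg, List.getElem?_map, List.getElem?_range' (by omega)]
  simp

theorem seg_rigid {a b : A} (hab : a ≠ b) {T : ℕ} (hT : 0 < T) (p m : ℕ) :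
    Rigid (seg a b T p m) T := by
  intro p1 q1 p2 q2 R e1 e2 hR h1 h2
  obtain ⟨j, hj, hd⟩ : ∃ j < T, T ∣ p + (p1.length + j) := by
    refine ⟨(T - (p + p1.length) % T) % T, Nat.mod_lt _ hT, ?_⟩
    rw [← add_assoc, Nat.dvd_iff_mod_eq_zero, Nat.add_mod_mod]
    have h3 := Nat.mod_lt (p + p1.length) hT
    have h4 := Nat.div_add_mod (p + p1.length) T
    have : p + p1.length + (T - (p + p1.length) % T) = T * ((p + p1.length) / T + 1) := by
      rw [mul_add, mul_one]; omega
    rw [this, Nat.mul_mod_right]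
  have g1 := seg_get e1 (j := j) (by omega)
  have g2 := seg_get e2 (j := j) (by omega)
  rw [if_pos hd] at g1
  have hd2 : T ∣ p + (p2.length + j) := by
    by_contra hn
    rw [if_neg hn] at g2
    exact hab (Option.some.inj (g1.symm.trans g2))
  rcases le_total p1.length p2.length with h | h
  · have := Nat.eq_zero_of_dvd_of_lt (Nat.dvd_sub hd2 hd) (by omega)
    omega
  · have := Nat.eq_zero_of_dvd_of_lt (Nat.dvd_sub hd hd2) (by omega)
    omega

theorem seg_notMem {a b c : A} (ha : c ≠ a) (hb : c ≠ b) (T p m : ℕ) : c ∉ seg a b T p m := by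
  simp only [seg, List.mem_map, not_exists, not_and]
  intro j _ h
  split at h
  · exact ha h.symm
  · exact hb h.symm

theorem exists_dvd {T : ℕ} (hT : 0 < T) (p : ℕ) : ∃ j < T, T ∣ p + j := by
  refine ⟨(T - p % T) % T, Nat.mod_lt _ hT, ?_⟩
  rw [Nat.dvd_iff_mod_eq_zero, Nat.add_mod_mod]
  have h3 := Nat.mod_lt p hT
  have h4 := Nat.div_add_mod p T
  have : p + (T - p % T) = T * (p / T + 1) := by
    rw [mul_add, mul_one]; omega
  rw [this, Nat.mul_mod_right]

theorem seg_gap (a b : A) (T p m : ℕ) : Gap (seg a b T p m) b T := by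
  intro p1 R q e h he hR
  obtain ⟨j, hj, hd⟩ := exists_dvd (show 0 < T by omega) (p + p1.length)
  refine ⟨R.take (j + 1), (R.drop (j + 1)).drop e, ?_⟩
  have : (R.drop (j + 1)).take e = List.replicate e b := by
    apply List.ext_getElem?
    intro l
    by_cases hl : l < e
    · rw [List.getElem?_take_of_lt hl, List.getElem?_drop, seg_get h (by omega),
        List.getElem?_replicate_of_lt hl, if_neg]
      intro h2
      have := Nat.eq_zero_of_dvd_of_lt (Nat.dvd_sub h2 hd) (by omega)
      omega
    · rw [List.getElem?_eq_none (by rw [List.length_take]; omega),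
        List.getElem?_eq_none (by rw [List.length_replicate]; omega)]
  rw [← this, List.take_append_drop, List.take_append_drop]

theorem seg_sparse [DecidableEq A] {a b : A} (hab : a ≠ b) {T : ℕ} (hT : 4 ≤ T) (p m : ℕ) :
    Sparse a (seg a b T p m) := by
  intro p1 R q h hR
  by_contra hc
  obtain ⟨l1, l2, hl⟩ := List.append_of_mem
    (List.count_pos_iff.1 (show 0 < R.count a by omega))
  have h2 : a ∈ l1 ∨ a ∈ l2 := by
    by_contra hn
    rw [not_or] at hn
    rw [hl, List.count_append, List.count_cons_self, List.count_eq_zero.2 hn.1,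
      List.count_eq_zero.2 hn.2] at hc
    omega
  have key : ∀ j, R[j]? = some a → j < R.length ∧ T ∣ p + (p1.length + j) := by
    intro j hj
    have h3 : j < R.length := (List.getElem?_eq_some_iff.1 hj).1
    refine ⟨h3, ?_⟩
    by_contra hn
    rw [seg_get h h3, if_neg hn] at hj
    exact hab (Option.some.inj hj).symm
  have k0 := key l1.length (by rw [hl]; simp)
  rcases h2 with h2 | h2
  · obtain ⟨j, hj, e⟩ := List.getElem_of_mem h2
    have k1 := key j (by rw [hl, List.getElem?_append_left hj, List.getElem?_eq_getElem hj, e])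
    have := Nat.eq_zero_of_dvd_of_lt (Nat.dvd_sub k0.2 k1.2) (by omega)
    omega
  · obtain ⟨j, hj, e⟩ := List.getElem_of_mem h2
    have k1 := key (l1.length + (j + 1)) (by
      rw [hl, List.getElem?_append_right (by omega), Nat.add_sub_cancel_left,
        List.getElem?_cons_succ, List.getElem?_eq_getElem hj, e])
    have := Nat.eq_zero_of_dvd_of_lt (Nat.dvd_sub k1.2 k0.2) (by omega)
    omega

/-- The complement of the common `2k`-neighbourhood of two shifted rigid words. -/
theorem shift_guaranteed [DecidableEq A] {a b : A} (hab : a ≠ b) {k T : ℕ} (hk : 2 ≤ k)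
    (hT : 7 * k ≤ T) {P C Q : List A} (hP : P.length = k) (hQ : Q.length = k)
    (hs : Rigid (P ++ C) T) (ht : Rigid (C ++ Q) T) (hg : Gap (P ++ C) b T) (hcore : Core k P C Q)
    (hC : (2 * k + 1) * (2 * k * (2 * ((2 * k + 1) * T) + T + 2 * k)) ≤ C.length) {r : ℕ}
    (hr : r + 1 = 2 * k) (x y : List A) (hx : x.length = k + C.length)
    (hy : y.length = k + C.length) (h : Ed x y r) :
    ∃ v : List A, ¬ (Ed (P ++ C) v (2 * k) ∧ Ed (C ++ Q) v (2 * k)) ∧ v.length = k + C.length ∧
      Ed x v r ∧ Ed y v r := by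
  by_cases hxs : Ed (P ++ C) x (2 * k)
  swap
  · exact ⟨x, fun e => hxs e.1, hx, Ed.refl _ _, h.symm⟩
  obtain ⟨s, i, d, al, hb⟩ := hxs
  rw [← List.append_nil C] at al
  obtain ⟨C1, R0, C2, x1, x2, s1, i1, d1, s2, i2, d2, rfl, hR0, rfl, a1, -, rfl, rfl, rfl⟩ :=
    run _ (2 * k) al hb hC
  have l1 := a1.len
  obtain ⟨s', i', d', al', hb'⟩ := h
  obtain ⟨M1, R, M2, yL, yR, s3, i3, d3, s4, i4, d4, rfl, hR, rfl, a3, a4, rfl, rfl, rfl⟩ :=
    run (2 * ((2 * k + 1) * T) + T + 2 * k) r al' hb' (by rw [hR0, hr])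
  simp only [List.length_append] at hx hy l1
  obtain ⟨z, w, G, ⟨u1, u2, v1, v2, p1, p2, p3, p4, q1, q2, q3, q4⟩, q6⟩ :=
    hcore (C1 ++ M1) R (M2 ++ C2) (by simp only [List.append_assoc]) _ _ _ _ _ _ _ _ _ _ a3 a4
      (by omega) (by simp only [List.length_append]; omega)
      (by simp only [List.length_append]; omega)
  have lz := p1.len
  simp only [List.length_append] at lz q3 q4
  obtain ⟨g, e, h1, h2⟩ : ∃ g e : ℕ, max g e + G = r ∧
      z.length + g + w.length = C1.length + M1.length + k + (M2.length + C2.length) + e := by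
    rcases le_total (z.length + w.length)
      (C1.length + M1.length + k + (M2.length + C2.length)) with h | h
    · exact ⟨r - G, r - G + z.length + w.length -
        (C1.length + M1.length + k + (M2.length + C2.length)), by omega, by omega⟩
    · exact ⟨r - G + (C1.length + M1.length + k + (M2.length + C2.length)) -
        (z.length + w.length), r - G, by omega, by omega⟩
  obtain ⟨R1, R3, rfl, r1, r3⟩ : ∃ R1 R3 : List A, R = R1 ++ (List.replicate e b ++ R3) ∧
      (2 * k + 1) * T ≤ R1.length ∧ (2 * k + 1) * T ≤ R3.length := by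
    obtain ⟨Ra, Rm, Rc, rfl, r1, r2⟩ : ∃ Ra Rm Rc : List A, R = Ra ++ (Rm ++ Rc) ∧
        Ra.length = (2 * k + 1) * T ∧ Rm.length = T + e := by
      refine ⟨R.take ((2 * k + 1) * T), (R.drop ((2 * k + 1) * T)).take (T + e),
        (R.drop ((2 * k + 1) * T)).drop (T + e), by simp only [List.take_append_drop], ?_, ?_⟩
      · rw [List.length_take]; omega
      · rw [List.length_take, List.length_drop]; omega
    obtain ⟨R1, R3, rfl⟩ := hg (P ++ (C1 ++ (M1 ++ Ra))) Rm (Rc ++ (M2 ++ C2)) e
      (by simp only [List.append_assoc]) (by omega) r2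
    simp only [List.length_append] at hR r2
    exact ⟨Ra ++ R1, R3 ++ Rc, by simp only [List.append_assoc],
      by rw [List.length_append]; omega, by rw [List.length_append]; omega⟩
  simp only [List.length_append, List.length_replicate] at hR hx hy
  have mid : Ed (R1 ++ (List.replicate g a ++ R3)) (R1 ++ (List.replicate e b ++ R3)) (max g e) := by
    have := (Ed.refl R1 0).append
      ((ed_max (List.replicate g a) (List.replicate e b)).append (Ed.refl R3 0))
    rw [List.length_replicate, List.length_replicate] at this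
    exact this.mono (by omega)
  refine ⟨z ++ (R1 ++ (List.replicate g a ++ (R3 ++ w))), ?_, ?_, ?_, ?_⟩
  · rintro ⟨e1, e2⟩
    obtain ⟨c1, c2, c3, k1, k2, k3, k4, k5⟩ := cut hab (T := T) (b := 2 * k) (g := g) (e := e)
      (uL := P ++ (C1 ++ M1)) (R1 := R1) (R3 := R3) (uR := M2 ++ C2) (z := z) (w := w)
      (by simpa only [List.append_assoc] using hs) r1 r3
      (by simp only [List.length_append]; omega) (by simp only [List.length_append]; omega)
      (by omega) (by omega) (by simpa only [List.append_assoc] using e1.symm)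
    obtain ⟨f1, f2, f3, j1, j2, j3, j4, j5⟩ := cut hab (T := T) (b := 2 * k) (g := g) (e := e)
      (uL := C1 ++ M1) (R1 := R1) (R3 := R3) (uR := M2 ++ C2 ++ Q) (z := z) (w := w)
      (by simpa only [List.append_assoc] using ht) r1 r3
      (by simp only [List.length_append]; omega) (by simp only [List.length_append]; omega)
      (by omega) (by omega) (by simpa only [List.append_assoc] using e2.symm)
    have := q6 c1 c3 f1 f3 k2 k5 j2 j5
    omega
  · simp only [List.length_append, List.length_replicate]; omega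
  · have := (p1.append (mid.append p2)).symm
    simp only [List.append_assoc] at this ⊢
    exact this.mono (by omega)
  · have := (p3.append (mid.append p4)).symm
    simp only [List.append_assoc] at this ⊢
    exact this.mono (by omega)

theorem fails_of_core [DecidableEq A] {a b : A} (hab : a ≠ b) {k r : ℕ} (hk : 2 ≤ k)
    (hr : r + 1 = 2 * k) (hcore : ∀ m, Core k (seg a b (7 * k) 0 k) (seg a b (7 * k) (0 + k) m)
      (seg a b (7 * k) (0 + k + m) k)) :
    ∃ n, 1 ≤ n ∧ ∃ B : Set (List A), (∀ v ∈ B, v.length = n) ∧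
      Guaranteed n r r B ∧ ¬ Guaranteed n (r + 1) (r + 1) B := by
  obtain ⟨T, hT⟩ : ∃ T, T = 7 * k := ⟨_, rfl⟩
  rw [← hT] at hcore
  obtain ⟨m, hm⟩ : ∃ m, m = (2 * k + 1) * (2 * k * (2 * ((2 * k + 1) * T) + T + 2 * k)) := ⟨_, rfl⟩
  have hP := seg_length a b T 0 k
  have hC := seg_length a b T (0 + k) m
  have hQ := seg_length a b T (0 + k + m) k
  refine ⟨k + m, by omega, {v | v.length = k + m ∧
    ¬ (Ed (seg a b T 0 k ++ seg a b T (0 + k) m) v (2 * k) ∧
      Ed (seg a b T (0 + k) m ++ seg a b T (0 + k + m) k) v (2 * k))}, fun v hv => hv.1, ?_, ?_⟩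
  · rw [guaranteed_iff]
    intro x y hx hy h
    obtain ⟨v, h1, h2, h3, h4⟩ := shift_guaranteed hab (C := seg a b T (0 + k) m) hk hT.ge hP hQ
      (by rw [← seg_add]; exact seg_rigid hab (by omega) _ _)
      (by rw [← seg_add]; exact seg_rigid hab (by omega) _ _)
      (by rw [← seg_add]; exact seg_gap _ _ _ _ _) (hcore m)
      (by omega) hr x y (by omega) (by omega) h
    rw [hC] at h2
    exact ⟨v, ⟨h2, h1⟩, h2, h3, h4⟩
  · rw [guaranteed_iff, hr]
    intro h
    have e := (ed_max (seg a b T 0 k) []).append ((Ed.refl (seg a b T (0 + k) m) 0).append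
      (ed_max [] (seg a b T (0 + k + m) k)))
    simp only [List.append_nil, List.nil_append, List.length_nil, hP, hQ] at e
    obtain ⟨v, hv, -, h3, h4⟩ := h _ _ (by rw [List.length_append]; omega)
      (by rw [List.length_append]; omega) (e.mono (by omega))
    exact hv.2 ⟨h3, h4⟩

theorem Ed.map {A' : Type} (f : A → A') {x y : List A} {c : ℕ} (h : Ed x y c) :
    Ed (x.map f) (y.map f) c := by
  obtain ⟨s, i, d, h, hc⟩ := h
  exact (h.map f).ed hc

theorem transfer {A' : Type} (e : A ≃ A') {n d r : ℕ} {B : Set (List A)} (h : Guaranteed n d r B) :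
    Guaranteed n d r (List.map e '' B) := by
  rw [guaranteed_iff] at h ⊢
  intro s t hs ht hst
  obtain ⟨v, hv, h1, h2, h3⟩ := h (s.map e.symm) (t.map e.symm) (by simpa using hs)
    (by simpa using ht) (hst.map _)
  exact ⟨v.map e, ⟨v, hv, rfl⟩, by simpa using h1, by simpa using h2.map e,
    by simpa using h3.map e⟩

/-- Odd radius at least three: the implication fails over every alphabet with two letters. -/
theorem odd_fails [Nontrivial A] {k r : ℕ} (hk : 2 ≤ k) (hr : r + 1 = 2 * k) :
    ∃ n, 1 ≤ n ∧ ∃ B : Set (List A), (∀ v ∈ B, v.length = n) ∧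
      Guaranteed n r r B ∧ ¬ Guaranteed n (r + 1) (r + 1) B := by
  classical
  obtain ⟨a, b, hab⟩ := exists_pair_ne A
  by_cases hA : ∀ u : A, u = a ∨ u = b
  · by_cases h3 : 3 ≤ k
    · exact fails_of_core hab hk hr fun m => core_two hab hA h3 (seg_length ..) (seg_length ..)
        (by rw [← seg_add]; exact seg_sparse hab (by omega) _ _)
        (by rw [← seg_add]; exact seg_sparse hab (by omega) _ _)
    · obtain rfl : r = 3 := by omega
      let e : Bool ≃ A := Equiv.ofBijective (fun u => if u then a else b) ⟨by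
        intro u v huv
        cases u <;> cases v <;> simp_all [hab.symm], by
        intro u
        rcases hA u with rfl | rfl
        · exact ⟨true, rfl⟩
        · exact ⟨false, rfl⟩⟩
      obtain ⟨B, h1, h2, h4⟩ := Pool.Agent.P.MP_a407c4_co.main
      refine ⟨8, by omega, List.map e '' B, ?_, transfer e h2, fun h => h4 ?_⟩
      · rintro _ ⟨v, hv, rfl⟩
        simpa using h1 v hv
      · simpa [Set.image_image] using transfer e.symm h
  · simp only [not_forall, not_or] at hA
    obtain ⟨c, hca, hcb⟩ := hA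
    exact fails_of_core hab hk hr fun m => core_three c hk (seg_length ..) (seg_length ..)
      (by rw [← seg_add]; exact seg_notMem hca hcb _ _ _)
      (by rw [← seg_add]; exact seg_notMem hca hcb _ _ _)

theorem classification [Nontrivial A] {r : ℕ} (hr : 1 ≤ r) :
    (∀ n : ℕ, 1 ≤ n → ∀ B : Set (List A), (∀ v ∈ B, v.length = n) →
      Guaranteed n r r B → Guaranteed n (r + 1) (r + 1) B) ↔ (r = 1 ∨ Even r) := by
  constructor
  · intro h
    by_contra hn
    rw [not_or, Nat.not_even_iff_odd] at hn
    obtain ⟨h1, j, rfl⟩ := hn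
    obtain ⟨n, h2, B, h3, h4, h5⟩ := odd_fails (A := A) (k := j + 1) (r := 2 * j + 1) (by omega)
      (by omega)
    exact h5 (h n h2 B h3 h4)
  · rintro (rfl | h) n - B - hB
    · exact one_step hB
    · exact even_step h hB

end Pool.Agent.P.MP_a407c4_co.Par
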