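import Pool.Agent.P.MP_a407c4_co.Main

namespace Pool.Agent.P.MP_a407c4_co.VariantCounterexample

open Pool.Agent.P.MP_a407c4_co

theorem result : ∃ B : Set (List Bool), (∀ v ∈ B, v.length = 8) ∧
    Guaranteed 8 3 3 B ∧ ¬ Guaranteed 8 4 4 B :=
  Pool.Agent.P.MP_a407c4_co.main

end Pool.Agent.P.MP_a407c4_co.VariantCounterexample
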